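import Mathlib

/-!
# Elementary inequalities for `1 - (1 + v) ^ m`
-/

namespace GHDPoly

/-- Bonferroni -/
lemma bern3 (v : ℝ) (hv : -1 ≤ v) (m : ℕ) :
    1 + m * v + m * (m - 1) / 2 * v ^ 2 + m * (m - 1) * (m - 2) / 6 * v ^ 3 ≤ (1 + v) ^ m := by
  induction m with
  | zero => simp
  | succ m ih =>
    have h1 : 0 ≤ 1 + v := by linarith
    have h2 := mul_le_mul_of_nonneg_right ih h1
    rw [pow_succ]
    refine le_trans ?_ h2
    have h3 : 0 ≤ (m : ℝ) * (m - 1) * (m - 2) / 6 * v ^ 4 := by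
      have h4 : 0 ≤ (m : ℝ) * (m - 1) * (m - 2) := by
        rcases m with _ | _ | m
        · simp
        · simp
        · push_cast
          have : (0 : ℝ) ≤ m := by positivity
          have h5 : (m : ℝ) + 1 + 1 - 1 = m + 1 := by ring
          have h6 : (m : ℝ) + 1 + 1 - 2 = m := by ring
          rw [h5, h6]; positivity
      positivity
    push_cast
    have h7 : (1 + (m : ℝ) * v + m * (m - 1) / 2 * v ^ 2 + m * (m - 1) * (m - 2) / 6 * v ^ 3) *
        (1 + v) - (1 + ((m : ℝ) + 1) * v + (m + 1) * (m + 1 - 1) / 2 * v ^ 2 +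
          (m + 1) * (m + 1 - 1) * (m + 1 - 2) / 6 * v ^ 3) =
        (m : ℝ) * (m - 1) * (m - 2) / 6 * v ^ 4 := by ring
    linarith

/-- the small regime -/
lemma small_ineq (δ s : ℝ) (m : ℕ) (hδ : 0 < δ) (hm : 1 ≤ δ * m) (hs : |s| ≤ 2 * δ)
    (hsm : |s| ≤ m) : 1 - (1 + s / m) ^ m ≤ -s - (1 / 2 - δ) * s ^ 2 := by
  have hm0 : (0 : ℝ) < m := by
    by_contra h
    have : δ * m ≤ 0 := mul_nonpos_of_nonneg_of_nonpos hδ.le (not_lt.1 h)
    linarith
  have h1 : (1 : ℝ) ≤ m := by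
    have : 0 < m := by exact_mod_cast hm0
    exact_mod_cast this
  have hs1 := abs_le.1 hsm
  have hv : -1 ≤ s / m := by
    rw [le_div_iff₀ hm0]; linarith
  have h2 := bern3 (s / m) hv m
  have h3 : (m : ℝ) * (s / m) = s := by field_simp
  have h4 : (m : ℝ) * (m - 1) / 2 * (s / m) ^ 2 = (1 - 1 / m) / 2 * s ^ 2 := by
    field_simp
  have h5 : (m : ℝ) * (m - 1) * (m - 2) / 6 * (s / m) ^ 3 =
      (1 - 1 / m) * (1 - 2 / m) / 6 * s ^ 3 := by
    field_simp
  rw [h3, h4, h5] at h2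
  have h6 : 1 / (m : ℝ) ≤ δ := by
    rw [div_le_iff₀ hm0]; exact hm
  have h7 : 0 ≤ 1 / (m : ℝ) := by positivity
  have h7' : 1 / (m : ℝ) ≤ 1 := by
    rw [div_le_one hm0]; exact h1
  -- the cubic term
  have h8 : -(2 * δ / 6) * s ^ 2 ≤ (1 - 1 / m) * (1 - 2 / m) / 6 * s ^ 3 := by
    have h9 : |(1 - 1 / (m : ℝ)) * (1 - 2 / m)| ≤ 1 := by
      rw [abs_mul]
      have e1 : |1 - 1 / (m : ℝ)| ≤ 1 := by rw [abs_le]; constructor <;> linarith
      have e2 : |1 - 2 / (m : ℝ)| ≤ 1 := by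
        have : 2 / (m : ℝ) = 2 * (1 / m) := by ring
        rw [this, abs_le]; constructor <;> linarith
      calc _ ≤ 1 * 1 := mul_le_mul e1 e2 (abs_nonneg _) zero_le_one
        _ = 1 := one_mul 1
    have h10 : |(1 - 1 / (m : ℝ)) * (1 - 2 / m) / 6 * s ^ 3| ≤ 2 * δ / 6 * s ^ 2 := by
      rw [abs_mul, abs_div, abs_pow, abs_of_pos (by norm_num : (0 : ℝ) < 6)]
      have e3 : |s| ^ 3 = |s| * s ^ 2 := by rw [← sq_abs s]; ring
      rw [e3]
      calc |(1 - 1 / (m : ℝ)) * (1 - 2 / m)| / 6 * (|s| * s ^ 2)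
          ≤ 1 / 6 * (2 * δ * s ^ 2) := by
            refine mul_le_mul ?_ ?_ (by positivity) (by norm_num)
            · exact div_le_div_of_nonneg_right h9 (by norm_num)
            · exact mul_le_mul_of_nonneg_right hs (by positivity)
        _ = _ := by ring
    have := (abs_le.1 h10).1
    linarith
  have h11 : (1 - 1 / (m : ℝ)) / 2 * s ^ 2 ≥ (1 / 2 - δ / 2) * s ^ 2 := by
    refine mul_le_mul_of_nonneg_right ?_ (by positivity)
    linarith
  have h12 : 0 ≤ s ^ 2 := by positivity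
  nlinarith

/-- the good sign -/
lemma good_ineq (s : ℝ) (m : ℕ) (hm : 2 ≤ m) (hs : 0 ≤ s) :
    1 - (1 + s / m) ^ m ≤ -s - s ^ 2 / 4 := by
  have hm0 : (0 : ℝ) < m := by
    have : 0 < m := by omega
    exact_mod_cast this
  have hm2 : (2 : ℝ) ≤ m := by exact_mod_cast hm
  have hv : -1 ≤ s / m := by
    have : 0 ≤ s / m := by positivity
    linarith
  have h2 := bern3 (s / m) hv m
  have h3 : (m : ℝ) * (s / m) = s := by field_simp
  have h4 : (m : ℝ) * (m - 1) / 2 * (s / m) ^ 2 = (1 - 1 / m) / 2 * s ^ 2 := by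
    field_simp
  have h5 : 0 ≤ (m : ℝ) * (m - 1) * (m - 2) / 6 * (s / m) ^ 3 := by
    have e1 : (0 : ℝ) ≤ m - 1 := by linarith
    have e2 : (0 : ℝ) ≤ m - 2 := by linarith
    positivity
  rw [h3, h4] at h2
  have h6 : 1 / (m : ℝ) ≤ 1 / 2 := by
    rw [div_le_div_iff₀ hm0 (by norm_num)]; linarith
  have h7 : 1 / 4 * s ^ 2 ≤ (1 - 1 / (m : ℝ)) / 2 * s ^ 2 :=
    mul_le_mul_of_nonneg_right (by linarith) (by positivity)
  linarith

/-- the bad sign -/
lemma bad_ineq (s : ℝ) (m : ℕ) (hm : 1 ≤ m) (hs : |s| ≤ m) :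
    1 - (1 + s / m) ^ m ≤ min 1 (-s) := by
  have hm0 : (0 : ℝ) < m := by
    have : 0 < m := by omega
    exact_mod_cast this
  have hs1 := abs_le.1 hs
  have hv : -1 ≤ s / m := by
    rw [le_div_iff₀ hm0]; linarith
  refine le_min ?_ ?_
  · have : 0 ≤ (1 + s / m) ^ m := pow_nonneg (by linarith) m
    linarith
  · have h1 := one_add_mul_le_pow (a := s / m) (by linarith) m
    have h3 : (m : ℝ) * (s / m) = s := by field_simp
    rw [h3] at h1
    linarith

/-- upper bound, small coordinates; `c = χ` is a sign -/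
noncomputable def hs (δ α c : ℝ) : ℝ := if |α| ≤ δ then -(c * α) - (1 / 2 - δ) * α ^ 2 else 0

/-- the weight of a big coordinate -/
noncomputable def wt (δ α : ℝ) : ℝ := if |α| ≤ δ then 0 else min 1 |α|

/-- upper bound, big coordinates -/
noncomputable def hb (δ α c : ℝ) : ℝ :=
  if c * α < 0 then wt δ α else -(1 + δ / 4) * wt δ α

lemma wt_nonneg (δ α : ℝ) : 0 ≤ wt δ α := by
  unfold wt
  split_ifs
  · exact le_rfl
  · exact le_min zero_le_one (abs_nonneg _)

lemma wt_le_one (δ α : ℝ) : wt δ α ≤ 1 := by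
  unfold wt
  split_ifs
  · exact zero_le_one
  · exact min_le_left _ _

/-- the inequality for one coordinate, with an error in `α` -/
lemma coord (δ α α' c e : ℝ) (m : ℕ) (hδ : 0 < δ) (hδ1 : δ ≤ 1) (hm : 1 ≤ δ * m) (hm2 : 2 ≤ m)
    (hc : |c| = 1) (hα : |α| ≤ m) (hα' : |α'| ≤ m) (he : |α - α'| ≤ e) (heδ : e ≤ δ) :
    1 - (1 + c * α / m) ^ m ≤ hs δ α' c + hb δ α' c + 2 * m * e := by
  have hm0 : (2 : ℝ) ≤ m := by exact_mod_cast hm2
  have he0 : 0 ≤ e := (abs_nonneg _).trans he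
  have hcα : |c * α| = |α| := by rw [abs_mul, hc, one_mul]
  have hcα' : |c * α'| = |α'| := by rw [abs_mul, hc, one_mul]
  have hd : |c * α - c * α'| ≤ e := by rw [← mul_sub, abs_mul, hc, one_mul]; exact he
  have hd1 := abs_le.1 hd
  have hsq : α' ^ 2 = (c * α') ^ 2 := by rw [← sq_abs α', ← hcα', sq_abs]
  rw [← hcα] at hα
  rw [← hcα'] at hα'
  set s := c * α with hs'
  set s' := c * α' with hs''
  by_cases hsm : |α'| ≤ δ
  · have hb0 : hb δ α' c = 0 := by
      unfold hb wt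
      rw [if_pos hsm]; simp
    have hs0 : hs δ α' c = -s' - (1 / 2 - δ) * s' ^ 2 := by
      unfold hs
      rw [if_pos hsm, hsq]
    rw [hb0, hs0]
    have h1 : |s'| ≤ δ := by rw [hcα']; exact hsm
    have h1' := abs_le.1 h1
    have h2 : |s| ≤ 2 * δ := by rw [abs_le]; constructor <;> linarith
    have h2' := abs_le.1 h2
    have h3 := small_ineq δ s m hδ hm h2 hα
    have h4 : -(3 * δ * e) ≤ s ^ 2 - s' ^ 2 := by
      have e1 : |s ^ 2 - s' ^ 2| ≤ e * (3 * δ) := by
        rw [sq_sub_sq, abs_mul, mul_comm]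
        refine mul_le_mul hd ?_ (abs_nonneg _) he0
        rw [abs_le]; constructor <;> linarith
      have := (abs_le.1 e1).1
      linarith
    have h5 : s ^ 2 - s' ^ 2 ≤ 3 * δ * e := by
      have e1 : |s ^ 2 - s' ^ 2| ≤ e * (3 * δ) := by
        rw [sq_sub_sq, abs_mul, mul_comm]
        refine mul_le_mul hd ?_ (abs_nonneg _) he0
        rw [abs_le]; constructor <;> linarith
      have := (abs_le.1 e1).2
      linarith
    have h6 : |(1 / 2 - δ) * (s ^ 2 - s' ^ 2)| ≤ 1 * (3 * δ * e) := by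
      rw [abs_mul]
      refine mul_le_mul ?_ (abs_le.2 ⟨by linarith, h5⟩) (abs_nonneg _) zero_le_one
      rw [abs_le]; constructor <;> linarith
    have h7 := (abs_le.1 h6).1
    have h8 : 3 * δ * e ≤ 3 * e := by nlinarith
    have h9 : 4 * e ≤ 2 * m * e := by nlinarith
    nlinarith
  · have hs0 : hs δ α' c = 0 := by
      unfold hs; rw [if_neg hsm]
    have hwt : wt δ α' = min 1 |s'| := by
      unfold wt; rw [if_neg hsm, hcα']
    rw [hs0, zero_add]
    push Not at hsm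
    rw [← hcα'] at hsm
    have hα1 := abs_le.1 hα
    have hα1' := abs_le.1 hα'
    have h9 : e + e ≤ 2 * m * e := by nlinarith
    rcases lt_or_ge s' 0 with h | h
    · have hb0 : hb δ α' c = min 1 |s'| := by
        unfold hb
        rw [if_pos h, hwt]
      rw [hb0]
      have h1 := bad_ineq s m (by omega) hα
      refine h1.trans ?_
      rw [abs_of_neg h]
      rcases min_cases 1 (-s') with ⟨h2, _⟩ | ⟨h2, _⟩
      · rw [h2]
        have := min_le_left 1 (-s)
        linarith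
      · rw [h2]
        have := min_le_right 1 (-s)
        linarith
    · have hb0 : hb δ α' c = -(1 + δ / 4) * min 1 |s'| := by
        unfold hb
        rw [if_neg (not_lt.2 h), hwt]
      rw [hb0]
      rw [abs_of_nonneg h] at hsm ⊢
      have h1 : 0 ≤ s := by linarith
      have h2 := good_ineq s m hm2 h1
      have h3 : (1 + δ / 4) * min 1 s' ≤ s' + s' ^ 2 / 4 := by
        have e1 : min 1 s' ≤ s' := min_le_right _ _
        have e2 : (1 + δ / 4) * min 1 s' ≤ (1 + δ / 4) * s' :=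
          mul_le_mul_of_nonneg_left e1 (by linarith)
        nlinarith
      have h4 : s' + s' ^ 2 / 4 - (s + s ^ 2 / 4) ≤ 2 * m * e := by
        have e3 : s' + s' ^ 2 / 4 - (s + s ^ 2 / 4) = (s' - s) * (1 + (s' + s) / 4) := by ring
        rw [e3]
        have e4 : (s' - s) * (1 + (s' + s) / 4) ≤ e * (1 + (s' + s) / 4) :=
          mul_le_mul_of_nonneg_right (by linarith) (by linarith)
        have e5 : e * (1 + (s' + s) / 4) ≤ e * (2 * m) :=
          mul_le_mul_of_nonneg_left (by linarith) he0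
        linarith
      linarith

/-- the exponential moment of a small coordinate -/
lemma moment (δ α : ℝ) (hδ : 0 < δ) (hδ2 : δ ≤ 1 / 4) :
    Real.exp ((1 - 2 * δ) * hs δ α 1) + Real.exp ((1 - 2 * δ) * hs δ α (-1)) ≤ 2 := by
  unfold hs
  by_cases h : |α| ≤ δ
  · rw [if_pos h, if_pos h]
    set β := 1 - 2 * δ with hβ
    have hβ0 : 0 < β := by linarith
    have h1 : Real.exp (β * (-(1 * α) - (1 / 2 - δ) * α ^ 2)) +
        Real.exp (β * (-(-1 * α) - (1 / 2 - δ) * α ^ 2)) =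
        2 * (Real.cosh (β * α) * Real.exp (-(β * (β / 2) * α ^ 2))) := by
      rw [Real.cosh_eq]
      have e1 : β * (-(1 * α) - (1 / 2 - δ) * α ^ 2) =
          -(β * α) + -(β * (β / 2) * α ^ 2) := by rw [hβ]; ring
      have e2 : β * (-(-1 * α) - (1 / 2 - δ) * α ^ 2) =
          (β * α) + -(β * (β / 2) * α ^ 2) := by rw [hβ]; ring
      rw [e1, e2, Real.exp_add, Real.exp_add]
      ring
    rw [h1]
    have h2 := Real.cosh_le_exp_half_sq (β * α)
    have h3 : Real.cosh (β * α) * Real.exp (-(β * (β / 2) * α ^ 2)) ≤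
        Real.exp ((β * α) ^ 2 / 2) * Real.exp (-(β * (β / 2) * α ^ 2)) :=
      mul_le_mul_of_nonneg_right h2 (Real.exp_pos _).le
    rw [← Real.exp_add] at h3
    have h4 : (β * α) ^ 2 / 2 + -(β * (β / 2) * α ^ 2) = 0 := by ring
    rw [h4, Real.exp_zero] at h3
    linarith
  · rw [if_neg h, if_neg h]
    simp
    norm_num

end GHDPoly
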