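import Mathlib
import Pool.Agent.Lib.GHDXor.Step
import Pool.Agent.Lib.GHDPoly.Ineq

/-!
# Averages over subcubes
-/

open Finset

namespace GHDPoly

open GHDRace GHDXor

variable {n : ℕ}

/-- the sign of a coordinate -/
noncomputable def chi (a : ZMod 2) : ℝ := if a = 0 then 1 else -1

lemma abs_chi (a : ZMod 2) : |chi a| = 1 := by
  unfold chi; split_ifs <;> norm_num

lemma chi_zero : chi 0 = 1 := by simp [chi]

lemma chi_one : chi 1 = -1 := by simp [chi]

lemma z2 (a : ZMod 2) : a = 0 ∨ a = 1 := by revert a; decide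

lemma cos_update (b : Fin n → ZMod 2) (J : Finset (Fin n)) (t : Fin n) (ht : t ∈ J) (v : ZMod 2) :
    cos (Function.update b t v) (J.erase t) = (cos b J).filter fun x => x t = v := by
  ext x
  simp only [mem_filter, mem_cos, mem_erase, not_and_or, not_not]
  constructor
  · intro h
    refine ⟨fun i hi => ?_, ?_⟩
    · have h1 := h i (Or.inr hi)
      rwa [Function.update_of_ne (show i ≠ t from fun h2 => hi (by rw [h2]; exact ht))] at h1
    · have h1 := h t (Or.inl rfl)
      rwa [Function.update_self] at h1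
  · rintro ⟨h1, h2⟩ i hi
    by_cases hit : i = t
    · subst hit
      rw [Function.update_self]; exact h2
    · rw [Function.update_of_ne hit]
      rcases hi with hi | hi
      · exact absurd hi hit
      · exact h1 i hi

/-- the two halves -/
lemma two_halves (h : (Fin n → ZMod 2) → ℝ) (b : Fin n → ZMod 2) (J : Finset (Fin n)) (t : Fin n)
    (ht : t ∈ J) :
    ∑ x ∈ cos b J, h x = ∑ x ∈ cos (Function.update b t 0) (J.erase t), h x +
      ∑ x ∈ cos (Function.update b t 1) (J.erase t), h x := by
  rw [cos_update b J t ht, cos_update b J t ht,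
    ← Finset.sum_filter_add_sum_filter_not (cos b J) (fun x => x t = 0)]
  congr 1
  refine Finset.sum_congr ?_ fun _ _ => rfl
  ext x
  simp only [mem_filter]
  refine and_congr_right fun _ => ?_
  rcases z2 (x t) with h | h <;> simp [h]

lemma cos_eq {b x : Fin n → ZMod 2} {J : Finset (Fin n)} (h : x ∈ cos b J) : cos x J = cos b J := by
  ext y
  rw [mem_cos, mem_cos]
  refine forall_congr' fun i => forall_congr' fun hi => ?_
  rw [mem_cos.1 h i hi]

/-- exponential moments on a subcube -/
lemma exp_moment (φ : Fin n → ZMod 2 → ℝ) (hφ : ∀ t, Real.exp (φ t 0) + Real.exp (φ t 1) ≤ 2)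
    (I : Finset (Fin n)) : ∀ b : Fin n → ZMod 2,
    ∑ x ∈ cos b I, Real.exp (∑ t ∈ I, φ t (x t)) ≤ 2 ^ I.card := by
  classical
  induction I using Finset.induction_on with
  | empty =>
    intro b
    have h : cos b (∅ : Finset (Fin n)) = {b} := by
      ext x
      rw [mem_cos, mem_singleton]
      exact ⟨fun h => funext fun i => h i (by simp), fun h i _ => by rw [h]⟩
    rw [h]
    simp
  | insert t I ht ih =>
    intro b
    rw [two_halves _ b (insert t I) t (mem_insert_self _ _), Finset.erase_insert ht,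
      Finset.card_insert_of_notMem ht]
    have h1 : ∀ v : ZMod 2, ∑ x ∈ cos (Function.update b t v) I,
        Real.exp (∑ s ∈ insert t I, φ s (x s)) ≤ Real.exp (φ t v) * 2 ^ I.card := by
      intro v
      have h2 : ∀ x ∈ cos (Function.update b t v) I,
          Real.exp (∑ s ∈ insert t I, φ s (x s)) =
            Real.exp (φ t v) * Real.exp (∑ s ∈ I, φ s (x s)) := by
        intro x hx
        rw [Finset.sum_insert ht, Real.exp_add, mem_cos.1 hx t ht, Function.update_self]
      rw [Finset.sum_congr rfl h2, ← Finset.mul_sum]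
      exact mul_le_mul_of_nonneg_left (ih _) (Real.exp_pos _).le
    have h3 := h1 0
    have h4 := h1 1
    have h5 := mul_le_mul_of_nonneg_right (hφ t) (by positivity : (0 : ℝ) ≤ 2 ^ I.card)
    rw [pow_succ]
    linarith

/-- the average of `f` over `x + G_J` -/
noncomputable def av (f : (Fin n → ZMod 2) → ℝ) (x : Fin n → ZMod 2) (J : Finset (Fin n)) : ℝ :=
  (∑ y ∈ cos x J, f y) / 2 ^ J.card

/-- the Fourier coefficient of `f` at a coordinate -/
noncomputable def co (f : (Fin n → ZMod 2) → ℝ) (x : Fin n → ZMod 2) (J : Finset (Fin n))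
    (t : Fin n) : ℝ :=
  (∑ y ∈ cos x J, f y * chi (y t)) / 2 ^ J.card

lemma av_half (f : (Fin n → ZMod 2) → ℝ) (x : Fin n → ZMod 2) (J : Finset (Fin n)) (t : Fin n)
    (ht : t ∈ J) : av f x (J.erase t) = av f x J + chi (x t) * co f x J t := by
  unfold av co
  have hcard : (2 : ℝ) ^ J.card = 2 * 2 ^ (J.erase t).card := by
    rw [← Finset.card_erase_add_one ht, pow_succ]; ring
  have h0 : ∀ v : ZMod 2, ∑ y ∈ cos (Function.update x t v) (J.erase t), f y * chi (y t) =
      chi v * ∑ y ∈ cos (Function.update x t v) (J.erase t), f y := by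
    intro v
    rw [Finset.mul_sum]
    refine Finset.sum_congr rfl fun y hy => ?_
    rw [cos_update x J t ht] at hy
    rw [(Finset.mem_filter.1 hy).2]; ring
  rw [two_halves f x J t ht, two_halves (fun y => f y * chi (y t)) x J t ht, h0, h0, chi_zero,
    chi_one, hcard]
  rcases z2 (x t) with h | h
  · rw [h, chi_zero]
    have h1 : Function.update x t 0 = x := by rw [← h]; exact Function.update_eq_self _ _
    rw [h1]
    field_simp
    ring
  · rw [h, chi_one]
    have h1 : Function.update x t 1 = x := by rw [← h]; exact Function.update_eq_self _ _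
    rw [h1]
    field_simp
    ring

lemma av_nonneg (f : (Fin n → ZMod 2) → ℝ) (hf : ∀ y, 0 ≤ f y) (x : Fin n → ZMod 2)
    (J : Finset (Fin n)) : 0 ≤ av f x J :=
  div_nonneg (Finset.sum_nonneg fun y _ => hf y) (by positivity)

lemma av_le (f : (Fin n → ZMod 2) → ℝ) (c : ℝ) (hf : ∀ y, f y ≤ c) (x : Fin n → ZMod 2)
    (J : Finset (Fin n)) : av f x J ≤ c := by
  unfold av
  rw [div_le_iff₀ (by positivity)]
  calc ∑ y ∈ cos x J, f y ≤ ∑ _y ∈ cos x J, c := Finset.sum_le_sum fun y _ => hf y
    _ = _ := by rw [Finset.sum_const, card_cos, nsmul_eq_mul]; push_cast; ring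

lemma abs_co_le (f : (Fin n → ZMod 2) → ℝ) (hf : ∀ y, 0 ≤ f y) (x : Fin n → ZMod 2)
    (J : Finset (Fin n)) (t : Fin n) : |co f x J t| ≤ av f x J := by
  unfold co av
  rw [abs_div, abs_of_pos (by positivity : (0 : ℝ) < 2 ^ J.card)]
  refine div_le_div_of_nonneg_right ?_ (by positivity)
  refine (Finset.abs_sum_le_sum_abs _ _).trans (Finset.sum_le_sum fun y _ => ?_)
  rw [abs_mul, abs_chi, mul_one, abs_of_nonneg (hf y)]

/-- the distance of two functions on `b + G_J` -/
noncomputable def dis (f f' : (Fin n → ZMod 2) → ℝ) (b : Fin n → ZMod 2) (J : Finset (Fin n)) : ℝ :=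
  (∑ y ∈ cos b J, |f y - f' y|) / 2 ^ J.card

lemma av_sub_le (f f' : (Fin n → ZMod 2) → ℝ) (b : Fin n → ZMod 2) (J : Finset (Fin n)) :
    |av f b J - av f' b J| ≤ dis f f' b J := by
  unfold av dis
  rw [← sub_div, abs_div, abs_of_pos (by positivity : (0 : ℝ) < 2 ^ J.card),
    ← Finset.sum_sub_distrib]
  exact div_le_div_of_nonneg_right (Finset.abs_sum_le_sum_abs _ _) (by positivity)

lemma co_sub_le (f f' : (Fin n → ZMod 2) → ℝ) (b : Fin n → ZMod 2) (J : Finset (Fin n))
    (t : Fin n) : |co f b J t - co f' b J t| ≤ dis f f' b J := by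
  unfold co dis
  rw [← sub_div, abs_div, abs_of_pos (by positivity : (0 : ℝ) < 2 ^ J.card),
    ← Finset.sum_sub_distrib]
  refine div_le_div_of_nonneg_right ((Finset.abs_sum_le_sum_abs _ _).trans
    (Finset.sum_le_sum fun y _ => ?_)) (by positivity)
  rw [← sub_mul, abs_mul, abs_chi, mul_one]

lemma av_congr (f : (Fin n → ZMod 2) → ℝ) {b x : Fin n → ZMod 2} {J : Finset (Fin n)}
    (h : x ∈ cos b J) : av f x J = av f b J := by
  unfold av; rw [cos_eq h]

lemma co_congr (f : (Fin n → ZMod 2) → ℝ) {b x : Fin n → ZMod 2} {J : Finset (Fin n)}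
    (h : x ∈ cos b J) (t : Fin n) : co f x J t = co f b J t := by
  unfold co; rw [cos_eq h]

/-- **Protecting coordinates**: if every `x` of the support of `G` has many bad signs then some
subcube of codimension `r` carries more mass. -/
theorem protect (G : (Fin n → ZMod 2) → ℝ) (hG : ∀ x, 0 ≤ G x) (c : ℝ) (hc : 0 ≤ c)
    (u : Fin n → ℝ) (hu0 : ∀ t, 0 ≤ u t) (hu1 : ∀ t, u t ≤ 1) (β : Fin n → ZMod 2) :
    ∀ (r : ℕ) (I B : Finset (Fin n)) (b : Fin n → ZMod 2), B ⊆ I →
      (∀ x ∈ cos b I, G x ≠ 0 →
        (r : ℝ) ≤ ∑ t ∈ B, (if x t = β t then u t else -(1 + c) * u t)) →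
      0 < ∑ x ∈ cos b I, G x →
      ∃ (I' : Finset (Fin n)) (b' : Fin n → ZMod 2), I' ⊆ I ∧ I'.card + r = I.card ∧
        (2 * (1 + c) / (2 + c)) ^ r * ((∑ x ∈ cos b I, G x) / 2 ^ I.card) ≤
          (∑ x ∈ cos b' I', G x) / 2 ^ I'.card := by
  classical
  intro r
  induction r with
  | zero =>
    intro I B b _ _ _
    exact ⟨I, b, Subset.rfl, by simp, by simp⟩
  | succ r ih =>
    intro I B b hB hx hpos
    have hc2 : 0 < 2 + c := by linarith
    -- a coordinate with many bad signs
    have h1 : 0 < ∑ t ∈ B, u t * ∑ x ∈ cos b I, G x * (if x t = β t then 1 else -(1 + c)) := by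
      have e1 : ∑ t ∈ B, u t * ∑ x ∈ cos b I, G x * (if x t = β t then 1 else -(1 + c)) =
          ∑ x ∈ cos b I, G x * ∑ t ∈ B, (if x t = β t then u t else -(1 + c) * u t) := by
        simp_rw [Finset.mul_sum]
        rw [Finset.sum_comm]
        refine Finset.sum_congr rfl fun x _ => Finset.sum_congr rfl fun t _ => ?_
        split_ifs <;> ring
      rw [e1]
      calc (0 : ℝ) < ∑ x ∈ cos b I, G x := hpos
        _ ≤ _ := Finset.sum_le_sum fun x hxI => by
          by_cases h0 : G x = 0
          · rw [h0]; simp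
          · refine le_mul_of_one_le_right (hG x) ?_
            have := hx x hxI h0
            push_cast at this
            have : (0 : ℝ) ≤ r := by positivity
            linarith
    obtain ⟨t, htB, ht⟩ : ∃ t ∈ B,
        0 < u t * ∑ x ∈ cos b I, G x * (if x t = β t then 1 else -(1 + c)) := by
      by_contra hcon
      push Not at hcon
      exact absurd h1 (not_lt.2 (Finset.sum_nonpos hcon))
    have htI : t ∈ I := hB htB
    have h2 : 0 < ∑ x ∈ cos b I, G x * (if x t = β t then 1 else -(1 + c)) := by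
      rcases (hu0 t).eq_or_lt with h | h
      · rw [← h, zero_mul] at ht; exact absurd ht (lt_irrefl _)
      · exact (mul_pos_iff_of_pos_left h).1 ht
    set b₁ := Function.update b t (β t) with hb₁
    have hcos : cos b₁ (I.erase t) = (cos b I).filter fun x => x t = β t :=
      cos_update b I t htI (β t)
    set M := ∑ x ∈ cos b I, G x with hM
    set M₁ := ∑ x ∈ cos b₁ (I.erase t), G x with hM₁
    have h3 : ∑ x ∈ cos b I, G x * (if x t = β t then 1 else -(1 + c)) =
        (2 + c) * M₁ - (1 + c) * M := by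
      rw [hM₁, hcos, Finset.sum_filter, hM, Finset.mul_sum, Finset.mul_sum,
        ← Finset.sum_sub_distrib]
      refine Finset.sum_congr rfl fun x _ => ?_
      split_ifs <;> ring
    rw [h3] at h2
    have h4 : (1 + c) / (2 + c) * M ≤ M₁ := by
      rw [div_mul_eq_mul_div, div_le_iff₀ hc2]; linarith
    have hM₁pos : 0 < M₁ := lt_of_lt_of_le (by positivity) h4
    obtain ⟨I', b', hI', hcard, hfin⟩ := ih (I.erase t) (B.erase t) b₁
      (Finset.erase_subset_erase t hB) (by
        intro x hx1 hx0
        rw [hcos, Finset.mem_filter] at hx1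
        have h5 := hx x hx1.1 hx0
        rw [← Finset.add_sum_erase B _ htB, if_pos hx1.2] at h5
        push_cast at h5
        have := hu1 t
        linarith) hM₁pos
    refine ⟨I', b', hI'.trans (Finset.erase_subset _ _), ?_, ?_⟩
    · rw [← Finset.card_erase_add_one htI]; omega
    · refine le_trans ?_ hfin
      have hcard2 : (2 : ℝ) ^ I.card = 2 * 2 ^ (I.erase t).card := by
        rw [← Finset.card_erase_add_one htI, pow_succ]; ring
      rw [hcard2, pow_succ]
      have h6 : 2 * (1 + c) / (2 + c) * (M / (2 * 2 ^ (I.erase t).card)) ≤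
          M₁ / 2 ^ (I.erase t).card := by
        rw [div_mul_div_comm, div_le_div_iff₀ (by positivity) (by positivity)]
        rw [div_mul_eq_mul_div, div_le_iff₀ hc2] at h4
        have h7 : (0 : ℝ) < 2 ^ (I.erase t).card := by positivity
        nlinarith
      calc (2 * (1 + c) / (2 + c)) ^ r * (2 * (1 + c) / (2 + c)) *
            (M / (2 * 2 ^ (I.erase t).card))
          = (2 * (1 + c) / (2 + c)) ^ r *
            (2 * (1 + c) / (2 + c) * (M / (2 * 2 ^ (I.erase t).card))) := by ring
        _ ≤ _ := mul_le_mul_of_nonneg_left h6 (by positivity)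

end GHDPoly
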