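import Mathlib
import Pool.Agent.Lib.GHDPoly.Cube

/-!
# A small net of rows
-/

open Finset

namespace GHDPoly

open GHDRace GHDXor

variable {n : ℕ}

/-- the row of `x` as a function with values in `{0, 2}` -/
noncomputable def row (A : (Fin n → ZMod 2) → (Fin n → ZMod 2) → Bool) (x y : Fin n → ZMod 2) : ℝ :=
  1 - sg (A x y)

lemma row_nonneg (A : (Fin n → ZMod 2) → (Fin n → ZMod 2) → Bool) (x y : Fin n → ZMod 2) :
    0 ≤ row A x y := by
  unfold row sg; split_ifs <;> norm_num

lemma row_le (A : (Fin n → ZMod 2) → (Fin n → ZMod 2) → Bool) (x y : Fin n → ZMod 2) :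
    row A x y ≤ 2 := by
  unfold row sg; split_ifs <;> norm_num

lemma abs_row_sub (A : (Fin n → ZMod 2) → (Fin n → ZMod 2) → Bool) (x z y : Fin n → ZMod 2) :
    |row A x y - row A z y| = 2 * (if A x y ≠ A z y then 1 else 0) := by
  unfold row sg
  cases A x y <;> cases A z y <;> norm_num

/-- a net of `(M + 1) ^ d` rows -/
theorem net (A : (Fin n → ZMod 2) → (Fin n → ZMod 2) → Bool) (d : ℕ)
    (hd : ∀ S : Finset (Fin n → ZMod 2), Shat A S → S.card ≤ d)
    (b : Fin n → ZMod 2) (I J : Finset (Fin n)) (hI : 1 ≤ I.card) (M : ℕ) (e : ℝ) (he : 0 < e)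
    (hM : 4 * (I.card : ℝ) ≤ e * M) :
    ∃ Z ⊆ cos b I, Z.card ≤ (M + 1) ^ d ∧
      ∀ x ∈ cos b I, ∃ z ∈ Z, dis (row A x) (row A z) b J ≤ e := by
  classical
  have hM0 : (0 : ℝ) < M := by
    by_contra h
    have h1 : e * M ≤ 0 := mul_nonpos_of_nonneg_of_nonpos he.le (not_lt.1 h)
    have h2 : (1 : ℝ) ≤ I.card := by exact_mod_cast hI
    linarith
  obtain ⟨Z, hZ, hmax⟩ := Finset.exists_max_image
    ((cos b I).powerset.filter fun Z => ∀ x ∈ Z, ∀ z ∈ Z, x ≠ z →
      e < dis (row A x) (row A z) b J)
    (fun Z => Z.card) ⟨∅, by simp⟩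
  rw [Finset.mem_filter, Finset.mem_powerset] at hZ
  obtain ⟨hZI, hsep⟩ := hZ
  refine ⟨Z, hZI, ?_, ?_⟩
  · by_contra hcon
    push Not at hcon
    have hne : (cos b J).Nonempty := ⟨b, by simp [mem_cos]⟩
    haveI : Nonempty {y // y ∈ cos b J} := ⟨⟨hne.choose, hne.choose_spec⟩⟩
    obtain ⟨a, a', haa, hpack⟩ := pack
      (fun (a : {x // x ∈ Z}) (y : {y // y ∈ cos b J}) => A a.1 y.1) M d (by
        intro S hS
        have h5 := hd (S.map (Function.Embedding.subtype _)) (by
          intro B hB
          obtain ⟨x, hx⟩ := hS (S.filter fun y => y.1 ∈ B) (Finset.filter_subset _ _)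
          refine ⟨x.1, fun y hy => ?_⟩
          obtain ⟨y', hy', rfl⟩ := Finset.mem_map.1 hy
          have h4 : A x.1 y'.1 = true ↔ y' ∈ S.filter fun y => y.1 ∈ B := hx y' hy'
          simp only [Function.Embedding.subtype_apply]
          rw [h4]
          simp [hy'])
        rwa [Finset.card_map] at h5)
      (by
        rw [Fintype.card_coe]
        refine lt_of_le_of_lt ?_ hcon
        have h6 := sum_choose_le M d
        have h7 : Finset.Iic d = Finset.range (d + 1) := by
          ext i; simp [Nat.lt_succ_iff]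
        rwa [h7] at h6)
    rw [Fintype.card_coe, Fintype.card_coe, card_cos] at hpack
    have hd1 := hsep a.1 a.2 a'.1 a'.2 (fun h => haa (Subtype.ext h))
    have hcount : ((univ.filter fun y : {y // y ∈ cos b J} => A a.1 y.1 ≠ A a'.1 y.1).card : ℝ) =
        ∑ y ∈ cos b J, (if A a.1 y ≠ A a'.1 y then (1 : ℝ) else 0) := by
      rw [Finset.card_filter]
      push_cast
      rw [← Finset.sum_coe_sort (cos b J) fun y => (if A a.1 y ≠ A a'.1 y then (1 : ℝ) else 0)]
    have hdis : dis (row A a.1) (row A a'.1) b J =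
        2 * (∑ y ∈ cos b J, (if A a.1 y ≠ A a'.1 y then (1 : ℝ) else 0)) / 2 ^ J.card := by
      unfold dis
      congr 1
      rw [Finset.mul_sum]
      exact Finset.sum_congr rfl fun y _ => abs_row_sub A _ _ y
    rw [hcount] at hpack
    have hlog : Real.log (Z.card : ℝ) ≤ I.card := by
      have h1 : Z.card ≤ 2 ^ I.card := by
        rw [← card_cos b I]; exact Finset.card_le_card hZI
      have h2 : (0 : ℝ) < Z.card := by
        have : 0 < Z.card := by
          have : 0 < (M + 1) ^ d := by positivity
          omega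
        exact_mod_cast this
      have h3 : Real.log (Z.card : ℝ) ≤ Real.log ((2 : ℝ) ^ I.card) :=
        Real.log_le_log h2 (by exact_mod_cast h1)
      rw [Real.log_pow] at h3
      have h4 : Real.log 2 ≤ 1 := by
        have := Real.log_two_lt_d9
        linarith
      have h5 : (I.card : ℝ) * Real.log 2 ≤ I.card * 1 :=
        mul_le_mul_of_nonneg_left h4 (by positivity)
      linarith
    have h8 : dis (row A a.1) (row A a'.1) b J * M ≤ e * M := by
      refine le_trans ?_ hM
      rw [hdis, div_mul_eq_mul_div, div_le_iff₀ (by positivity)]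
      push_cast at hpack
      have h9 : 2 * Real.log (Z.card : ℝ) * (2 : ℝ) ^ J.card ≤ 2 * I.card * 2 ^ J.card :=
        mul_le_mul_of_nonneg_right (mul_le_mul_of_nonneg_left hlog (by norm_num)) (by positivity)
      linarith
    have h10 := le_of_mul_le_mul_right h8 hM0
    linarith
  · intro x hx
    by_contra hcon
    push Not at hcon
    have hself : dis (row A x) (row A x) b J = 0 := by
      unfold dis; simp
    have hxZ : x ∉ Z := by
      intro h
      have := hcon x h
      rw [hself] at this
      linarith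
    have hsymm : ∀ z, dis (row A z) (row A x) b J = dis (row A x) (row A z) b J := by
      intro z
      unfold dis
      congr 1
      exact Finset.sum_congr rfl fun y _ => abs_sub_comm _ _
    have h1 := hmax (insert x Z) (by
      rw [Finset.mem_filter, Finset.mem_powerset]
      refine ⟨Finset.insert_subset hx hZI, ?_⟩
      intro y hy z hz hyz
      rw [Finset.mem_insert] at hy hz
      rcases hy with rfl | hy <;> rcases hz with rfl | hz
      · exact absurd rfl hyz
      · exact hcon z hz
      · rw [hsymm]; exact hcon y hy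
      · exact hsep y hy z hz hyz)
    rw [Finset.card_insert_of_notMem hxZ] at h1
    omega

end GHDPoly
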