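import Mathlib
import Pool.Agent.Lib.GHDPoly.Net

/-!
# One step: drop a free coordinate or protect `r` coordinates
-/

open Finset

namespace GHDPoly

open GHDRace GHDXor

variable {n : ℕ}

/-- the potential: rows from `b + G_I`, columns from `x + G_J` -/
noncomputable def Fm (A : (Fin n → ZMod 2) → (Fin n → ZMod 2) → Bool) (m : ℕ)
    (b : Fin n → ZMod 2) (I J : Finset (Fin n)) : ℝ :=
  (∑ x ∈ cos b I, (av (row A x) x J) ^ m) / 2 ^ I.card

lemma ratio (a g a' g' e : ℝ) (hg : 0 < g) (h' : |a'| ≤ g') (ha : |a - a'| ≤ e)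
    (hgg : |g - g'| ≤ e) : |a / g - a' / g'| ≤ 2 * e / g := by
  have he : 0 ≤ e := (abs_nonneg _).trans ha
  have hg' : 0 ≤ g' := (abs_nonneg _).trans h'
  rcases hg'.eq_or_lt with h | h
  · rw [← h] at h' ⊢
    have h1 : a' = 0 := abs_eq_zero.1 (le_antisymm h' (abs_nonneg _))
    rw [h1, sub_zero] at ha
    rw [div_zero, sub_zero, abs_div, abs_of_pos hg]
    exact div_le_div_of_nonneg_right (by linarith) hg.le
  · have h1 : a / g - a' / g' = ((a - a') + a' / g' * (g' - g)) / g := by
      field_simp; ring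
    rw [h1, abs_div, abs_of_pos hg]
    refine div_le_div_of_nonneg_right ?_ hg.le
    refine (abs_add_le _ _).trans ?_
    rw [abs_mul, abs_div, abs_of_pos h, abs_sub_comm g' g]
    have h2 : |a'| / g' * |g - g'| ≤ 1 * e :=
      mul_le_mul ((div_le_one h).2 h') hgg (abs_nonneg _) zero_le_one
    linarith

/-- the bad bit of a coordinate -/
noncomputable def bbit (α : ℝ) : ZMod 2 := if 0 < α then 1 else 0

lemma hb_eq (δ α : ℝ) (hδ : 0 < δ) (ξ : ZMod 2) :
    hb δ α (chi ξ) = if ξ = bbit α then wt δ α else -(1 + δ / 4) * wt δ α := by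
  unfold hb bbit
  rcases lt_trichotomy α 0 with h | h | h
  · rcases z2 ξ with h1 | h1 <;> subst h1
    · rw [chi_zero, if_pos (by linarith), if_neg (not_lt.2 h.le), if_pos rfl]
    · rw [chi_one, if_neg (by linarith), if_neg (not_lt.2 h.le), if_neg (by decide)]
  · have h0 : wt δ α = 0 := by
      unfold wt
      rw [if_pos]
      rw [h, abs_zero]; exact hδ.le
    rw [h0]; simp
  · rcases z2 ξ with h1 | h1 <;> subst h1
    · rw [chi_zero, if_neg (by linarith), if_pos h, if_neg (by decide)]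
    · rw [chi_one, if_pos (by linarith), if_pos h, if_pos rfl]

theorem step (A : (Fin n → ZMod 2) → (Fin n → ZMod 2) → Bool) (d : ℕ)
    (hd : ∀ S : Finset (Fin n → ZMod 2), Shat A S → S.card ≤ d)
    (δ : ℝ) (hδ : 0 < δ) (hδ4 : δ ≤ 1 / 4) (m : ℕ) (hm : 1 ≤ δ * m) (hm2 : 2 ≤ m)
    (b : Fin n → ZMod 2) (I J : Finset (Fin n)) (hIJ : I ⊆ J) (hI : 1 ≤ I.card)
    (L : ℝ) (hL : 0 ≤ L) (hF : 2 ^ m * Real.exp (-L) ≤ Fm A m b I J)
    (M : ℕ) (hM : 8 * (m : ℝ) ^ 2 * (I.card : ℝ) ^ 3 * Real.exp (L / m) ≤ M) (r : ℕ) :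
    (∃ t ∈ I, ∃ b' : Fin n → ZMod 2, Fm A m b I J *
      (1 - (3 + r + (L + Real.log (((M + 1) ^ d : ℕ) : ℝ) + 1) / (1 - 2 * δ)) / I.card) ≤
        Fm A m b' (I.erase t) (J.erase t)) ∨
    (∃ (I' : Finset (Fin n)) (b' : Fin n → ZMod 2), I' ⊆ I ∧ I'.card + r = I.card ∧
      (2 * (1 + δ / 4) / (2 + δ / 4)) ^ r *
        (Fm A m b I J / (I.card * (((M + 1) ^ d : ℕ) : ℝ))) ≤ Fm A m b' I' J) := by
  classical
  set i := I.card with hi
  have hi0 : (0 : ℝ) < i := by exact_mod_cast hI
  have hi1 : (1 : ℝ) ≤ i := by exact_mod_cast hI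
  have hm0 : (0 : ℝ) < m := by
    have : 0 < m := by omega
    exact_mod_cast this
  have hm2' : (2 : ℝ) ≤ m := by exact_mod_cast hm2
  set K : ℝ := (((M + 1) ^ d : ℕ) : ℝ) with hK
  have hK1 : 1 ≤ K := by
    rw [hK]
    exact_mod_cast Nat.one_le_pow d (M + 1) (by omega)
  have hK0 : 0 < K := by linarith
  set β := 1 - 2 * δ with hβ
  have hβ0 : 0 < β := by rw [hβ]; linarith
  set E := Real.exp (L / m) with hE
  have hE0 : 0 < E := Real.exp_pos _
  set γ := 2 / (E * i) with hγ
  have hγ0 : 0 < γ := by positivity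
  set e := 1 / (2 * m * i : ℝ) with he
  have he0 : 0 < e := by positivity
  have heδ : e ≤ δ := by
    rw [he, div_le_iff₀ (by positivity)]
    nlinarith
  set e₀ := e * γ / (2 * m) with he₀
  have he₀0 : 0 < e₀ := by positivity
  have hFpos : 0 < Fm A m b I J := lt_of_lt_of_le (by positivity) hF
  -- the net
  obtain ⟨Z, hZ, hZcard, hnet⟩ := net A d hd b I J hI M e₀ he₀0 (by
    have h1 : e₀ * (8 * (m : ℝ) ^ 2 * (i : ℝ) ^ 3 * E) = 4 * i := by
      rw [he₀, he, hγ]; field_simp; ring
    rw [← h1]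
    exact mul_le_mul_of_nonneg_left hM he₀0.le)
  choose! zc hzcZ hzcd using hnet
  have hsub : ∀ x ∈ cos b I, x ∈ cos b J := by
    intro x hx
    rw [mem_cos] at hx ⊢
    exact fun t ht => hx t fun h => ht (hIJ h)
  set g : (Fin n → ZMod 2) → ℝ := fun x => av (row A x) b J with hg
  set al : (Fin n → ZMod 2) → Fin n → ℝ := fun x t => m * (co (row A x) b J t / g x) with hal
  have hg0 : ∀ x, 0 ≤ g x := fun x => av_nonneg _ (row_nonneg A x) _ _
  have hg2 : ∀ x, g x ≤ 2 := fun x => av_le _ 2 (row_le A x) _ _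
  have hgx : ∀ x ∈ cos b I, av (row A x) x J = g x := fun x hx => av_congr _ (hsub x hx)
  have hco : ∀ x t, |co (row A x) b J t| ≤ g x := fun x t => abs_co_le _ (row_nonneg A x) _ _ _
  have halm : ∀ x t, |al x t| ≤ m := by
    intro x t
    simp only [hal]
    rw [abs_mul, abs_of_pos hm0, abs_div, abs_of_nonneg (hg0 x)]
    have h1 : |co (row A x) b J t| / g x ≤ 1 := div_le_one_of_le₀ (hco x t) (hg0 x)
    calc (m : ℝ) * (|co (row A x) b J t| / g x) ≤ m * 1 := mul_le_mul_of_nonneg_left h1 hm0.le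
      _ = m := mul_one _
  have hale : ∀ x ∈ cos b I, γ ≤ g x → ∀ t, |al x t - al (zc x) t| ≤ e := by
    intro x hx hgood t
    have hgpos : 0 < g x := lt_of_lt_of_le hγ0 hgood
    have h1 := ratio (co (row A x) b J t) (g x) (co (row A (zc x)) b J t) (g (zc x)) e₀ hgpos
      (hco _ _) ((co_sub_le _ _ _ _ _).trans (hzcd x hx)) ((av_sub_le _ _ _ _).trans (hzcd x hx))
    simp only [hal]
    rw [← mul_sub, abs_mul, abs_of_pos hm0]
    calc (m : ℝ) * |co (row A x) b J t / g x - co (row A (zc x)) b J t / g (zc x)|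
        ≤ m * (2 * e₀ / g x) := mul_le_mul_of_nonneg_left h1 hm0.le
      _ ≤ m * (2 * e₀ / γ) := by
          refine mul_le_mul_of_nonneg_left ?_ hm0.le
          exact div_le_div_of_nonneg_left (by positivity) hγ0 hgood
      _ = e := by rw [he₀]; field_simp
  -- one row
  set Hs : (Fin n → ZMod 2) → (Fin n → ZMod 2) → ℝ := fun z x =>
    ∑ t ∈ I, hs δ (al z t) (chi (x t)) with hHs
  set Hb : (Fin n → ZMod 2) → (Fin n → ZMod 2) → ℝ := fun z x =>
    ∑ t ∈ I, hb δ (al z t) (chi (x t)) with hHb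
  have hrow : ∀ x ∈ cos b I, γ ≤ g x →
      g x ^ m * (i - Hs (zc x) x - Hb (zc x) x - 1) ≤
        ∑ t ∈ I, (av (row A x) x (J.erase t)) ^ m := by
    intro x hx hgood
    have hgpos : 0 < g x := lt_of_lt_of_le hγ0 hgood
    have h1 : ∀ t ∈ I, g x ^ m * (1 - hs δ (al (zc x) t) (chi (x t)) -
        hb δ (al (zc x) t) (chi (x t)) - 2 * m * e) ≤ (av (row A x) x (J.erase t)) ^ m := by
      intro t ht
      rw [av_half _ _ _ _ (hIJ ht), hgx x hx, co_congr _ (hsub x hx)]
      have h2 : g x + chi (x t) * co (row A x) b J t = g x * (1 + chi (x t) * al x t / m) := by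
        simp only [hal]; field_simp
      rw [h2, mul_pow]
      refine mul_le_mul_of_nonneg_left ?_ (by positivity)
      have h3 := coord δ (al x t) (al (zc x) t) (chi (x t)) e m hδ (by linarith) hm hm2
        (abs_chi _) (halm _ _) (halm _ _) (hale x hx hgood t) heδ
      linarith
    refine le_trans (le_of_eq ?_) (Finset.sum_le_sum h1)
    rw [← Finset.mul_sum]
    congr 1
    simp only [Finset.sum_sub_distrib, Finset.sum_const, nsmul_eq_mul, mul_one, hHs, hHb, ← hi]
    have h4 : (i : ℝ) * (2 * m * e) = 1 := by rw [he]; field_simp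
    rw [h4]
  have hrow0 : ∀ x, 0 ≤ ∑ t ∈ I, (av (row A x) x (J.erase t)) ^ m := fun x =>
    Finset.sum_nonneg fun t _ => pow_nonneg (av_nonneg _ (row_nonneg A x) _ _) m
  -- the total weight
  set W := ∑ x ∈ cos b I, g x ^ m with hW
  have hWF : W = 2 ^ i * Fm A m b I J := by
    unfold Fm
    rw [← hi, mul_div_cancel₀ _ (by positivity : (2 : ℝ) ^ i ≠ 0), hW]
    exact Finset.sum_congr rfl fun x hx => by rw [hgx x hx]
  have hWpos : 0 < W := by rw [hWF]; positivity
  by_cases hcase : ∃ z ∈ Z, W / (i * K) ≤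
      ∑ x ∈ (cos b I).filter (fun x => γ ≤ g x ∧ (r : ℝ) ≤ Hb (zc x) x ∧ zc x = z), g x ^ m
  · right
    obtain ⟨z, hzZ, hz⟩ := hcase
    set G : (Fin n → ZMod 2) → ℝ := fun x =>
      if x ∈ cos b I ∧ γ ≤ g x ∧ (r : ℝ) ≤ Hb (zc x) x ∧ zc x = z then g x ^ m else 0 with hG
    have hG0 : ∀ x, 0 ≤ G x := by
      intro x
      simp only [hG]
      split_ifs
      · exact pow_nonneg (hg0 x) m
      · exact le_rfl
    have hGle : ∀ x, G x ≤ (av (row A x) x J) ^ m := by
      intro x
      simp only [hG]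
      split_ifs with h
      · rw [hgx x h.1]
      · exact pow_nonneg (av_nonneg _ (row_nonneg A x) _ _) m
    have hGsum : ∑ x ∈ cos b I, G x =
        ∑ x ∈ (cos b I).filter (fun x => γ ≤ g x ∧ (r : ℝ) ≤ Hb (zc x) x ∧ zc x = z), g x ^ m := by
      rw [Finset.sum_filter]
      refine Finset.sum_congr rfl fun x hx => ?_
      simp only [hG, hx, true_and]
    have hpos : 0 < ∑ x ∈ cos b I, G x := by
      rw [hGsum]; exact lt_of_lt_of_le (by positivity) hz
    obtain ⟨I', b', hI', hcard, hfin⟩ := protect G hG0 (δ / 4) (by linarith)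
      (fun t => wt δ (al z t)) (fun t => wt_nonneg _ _) (fun t => wt_le_one _ _)
      (fun t => bbit (al z t)) r I I b Subset.rfl (by
        intro x hx hx0
        have h1 : x ∈ cos b I ∧ γ ≤ g x ∧ (r : ℝ) ≤ Hb (zc x) x ∧ zc x = z := by
          by_contra h
          exact hx0 (by simp only [hG]; rw [if_neg h])
        have h2 := h1.2.2.1
        rw [h1.2.2.2] at h2
        refine h2.trans (le_of_eq ?_)
        simp only [hHb]
        exact Finset.sum_congr rfl fun t _ => hb_eq δ _ hδ _) hpos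
    refine ⟨I', b', hI', hcard, ?_⟩
    have h3 : (∑ x ∈ cos b' I', G x) / 2 ^ I'.card ≤ Fm A m b' I' J := by
      unfold Fm
      exact div_le_div_of_nonneg_right (Finset.sum_le_sum fun x _ => hGle x) (by positivity)
    refine le_trans ?_ (hfin.trans h3)
    refine mul_le_mul_of_nonneg_left ?_ (by positivity)
    rw [hGsum, le_div_iff₀ (by positivity), ← hi]
    refine le_trans (le_of_eq ?_) hz
    rw [hWF]; ring
  · left
    push Not at hcase
    set S := (cos b I).filter (fun x => γ ≤ g x ∧ (r : ℝ) ≤ Hb (zc x) x) with hS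
    set R0 := (cos b I).filter (fun x => γ ≤ g x ∧ ¬ (r : ℝ) ≤ Hb (zc x) x) with hR0
    set Lo := (cos b I).filter (fun x => ¬ γ ≤ g x) with hLo
    have hdecomp : ∀ φ : (Fin n → ZMod 2) → ℝ, ∑ x ∈ cos b I, φ x =
        ∑ x ∈ Lo, φ x + ∑ x ∈ S, φ x + ∑ x ∈ R0, φ x := by
      intro φ
      rw [hLo, hS, hR0, ← Finset.filter_filter, ← Finset.filter_filter, add_assoc,
        Finset.sum_filter_add_sum_filter_not, add_comm, Finset.sum_filter_add_sum_filter_not]
    -- low rows
    have hLoW : i * ∑ x ∈ Lo, g x ^ m ≤ W := by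
      have h1 : ∑ x ∈ Lo, g x ^ m ≤ 2 ^ i * γ ^ m := by
        calc ∑ x ∈ Lo, g x ^ m ≤ ∑ _x ∈ Lo, γ ^ m := Finset.sum_le_sum fun x hx =>
              pow_le_pow_left₀ (hg0 x) (not_le.1 (Finset.mem_filter.1 hx).2).le m
          _ = Lo.card * γ ^ m := by rw [Finset.sum_const, nsmul_eq_mul]
          _ ≤ 2 ^ i * γ ^ m := by
              refine mul_le_mul_of_nonneg_right ?_ (by positivity)
              have h2 : Lo.card ≤ 2 ^ i := by
                rw [hi, ← card_cos b I]; exact Finset.card_filter_le _ _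
              exact_mod_cast h2
      have h2 : i * γ ^ m ≤ Fm A m b I J := by
        refine le_trans ?_ hF
        have h3 : γ ^ m = 2 ^ m * Real.exp (-L) / i ^ m := by
          rw [hγ, div_pow, mul_pow, hE, ← Real.exp_nat_mul, Real.exp_neg]
          have h4 : (m : ℝ) * (L / m) = L := by field_simp
          rw [h4]
          field_simp
        have h5 : (i : ℝ) ≤ i ^ m := le_self_pow₀ hi1 (by omega)
        rw [h3]
        calc (i : ℝ) * (2 ^ m * Real.exp (-L) / i ^ m) = 2 ^ m * Real.exp (-L) * (i / i ^ m) := by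
              ring
          _ ≤ 2 ^ m * Real.exp (-L) * 1 := by
              refine mul_le_mul_of_nonneg_left ?_ (by positivity)
              rw [div_le_one (by positivity)]; exact h5
          _ = _ := mul_one _
      calc i * ∑ x ∈ Lo, g x ^ m ≤ i * (2 ^ i * γ ^ m) := mul_le_mul_of_nonneg_left h1 hi0.le
        _ = 2 ^ i * (i * γ ^ m) := by ring
        _ ≤ 2 ^ i * Fm A m b I J := mul_le_mul_of_nonneg_left h2 (by positivity)
        _ = W := hWF.symm
    -- rows with many bad signs
    have hSW : i * ∑ x ∈ S, g x ^ m ≤ W := by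
      have h1 : ∑ x ∈ S, g x ^ m = ∑ z ∈ Z, ∑ x ∈ S.filter (fun x => zc x = z), g x ^ m := by
        rw [Finset.sum_fiberwise_of_maps_to]
        intro x hx
        exact hzcZ x (Finset.mem_filter.1 hx).1
      have h2 : ∀ z ∈ Z, ∑ x ∈ S.filter (fun x => zc x = z), g x ^ m ≤ W / (i * K) := by
        intro z hz
        have h3 := hcase z hz
        refine le_trans (le_of_eq ?_) h3.le
        rw [hS, Finset.filter_filter]
        refine Finset.sum_congr ?_ fun _ _ => rfl
        ext x
        simp only [mem_filter, and_assoc]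
      rw [h1]
      calc i * ∑ z ∈ Z, ∑ x ∈ S.filter (fun x => zc x = z), g x ^ m
          ≤ i * ∑ _z ∈ Z, W / (i * K) :=
            mul_le_mul_of_nonneg_left (Finset.sum_le_sum h2) hi0.le
        _ = Z.card * (W / K) := by
            rw [Finset.sum_const, nsmul_eq_mul]; field_simp
        _ ≤ K * (W / K) := by
            refine mul_le_mul_of_nonneg_right ?_ (by positivity)
            rw [hK]; exact_mod_cast hZcard
        _ = W := by field_simp
    -- the exponential moment
    set lam := L + Real.log K with hlam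
    have hlam0 : 0 ≤ lam := by
      have := Real.log_nonneg hK1
      rw [hlam]; linarith
    have hR0W : β * ∑ x ∈ R0, g x ^ m * Hs (zc x) x ≤ (lam + 1) * W := by
      have h1 : ∀ x ∈ R0, β * (g x ^ m * Hs (zc x) x) ≤ lam * g x ^ m +
          2 ^ m * Real.exp (-lam) * ∑ z ∈ Z, Real.exp (β * Hs z x) := by
        intro x hx
        have hxI : x ∈ cos b I := (Finset.mem_filter.1 hx).1
        have h2 := Real.add_one_le_exp (β * Hs (zc x) x - lam)
        have h3 : Real.exp (β * Hs (zc x) x) ≤ ∑ z ∈ Z, Real.exp (β * Hs z x) :=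
          Finset.single_le_sum (f := fun z => Real.exp (β * Hs z x))
            (fun z _ => (Real.exp_pos _).le) (hzcZ x hxI)
        have h4 : g x ^ m ≤ 2 ^ m := pow_le_pow_left₀ (hg0 x) (hg2 x) m
        have h5 : 0 ≤ g x ^ m := pow_nonneg (hg0 x) m
        have h6 : Real.exp (β * Hs (zc x) x - lam) =
            Real.exp (-lam) * Real.exp (β * Hs (zc x) x) := by
          rw [← Real.exp_add]; congr 1; ring
        calc β * (g x ^ m * Hs (zc x) x) = g x ^ m * (β * Hs (zc x) x) := by ring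
          _ ≤ g x ^ m * (lam + Real.exp (-lam) * Real.exp (β * Hs (zc x) x)) := by
              refine mul_le_mul_of_nonneg_left ?_ h5
              rw [← h6]; linarith
          _ = lam * g x ^ m + g x ^ m * (Real.exp (-lam) * Real.exp (β * Hs (zc x) x)) := by ring
          _ ≤ lam * g x ^ m + 2 ^ m * (Real.exp (-lam) * ∑ z ∈ Z, Real.exp (β * Hs z x)) := by
              refine add_le_add le_rfl (mul_le_mul h4 ?_ (by positivity) (by positivity))
              exact mul_le_mul_of_nonneg_left h3 (Real.exp_pos _).le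
          _ = _ := by ring
      have h7 : ∀ z, ∑ x ∈ cos b I, Real.exp (β * Hs z x) ≤ 2 ^ i := by
        intro z
        have h8 := exp_moment (fun t ξ => β * hs δ (al z t) (chi ξ)) (by
          intro t
          simp only [chi_zero, chi_one]
          exact moment δ (al z t) hδ hδ4) I b
        refine le_trans (le_of_eq ?_) h8
        refine Finset.sum_congr rfl fun x _ => ?_
        simp only [hHs]
        rw [Finset.mul_sum]
      rw [Finset.mul_sum]
      calc ∑ x ∈ R0, β * (g x ^ m * Hs (zc x) x)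
          ≤ ∑ x ∈ R0, (lam * g x ^ m +
              2 ^ m * Real.exp (-lam) * ∑ z ∈ Z, Real.exp (β * Hs z x)) := Finset.sum_le_sum h1
        _ ≤ ∑ x ∈ cos b I, (lam * g x ^ m +
              2 ^ m * Real.exp (-lam) * ∑ z ∈ Z, Real.exp (β * Hs z x)) := by
            refine Finset.sum_le_sum_of_subset_of_nonneg (Finset.filter_subset _ _) ?_
            intro x _ _
            have := pow_nonneg (hg0 x) m
            positivity
        _ = lam * W + 2 ^ m * Real.exp (-lam) * ∑ z ∈ Z, ∑ x ∈ cos b I, Real.exp (β * Hs z x) := by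
            rw [Finset.sum_add_distrib, ← Finset.mul_sum, ← Finset.mul_sum, Finset.sum_comm]
        _ ≤ lam * W + 2 ^ m * Real.exp (-lam) * ∑ _z ∈ Z, 2 ^ i := by
            refine add_le_add le_rfl (mul_le_mul_of_nonneg_left
              (Finset.sum_le_sum fun z _ => h7 z) (by positivity))
        _ ≤ lam * W + 2 ^ m * Real.exp (-lam) * (K * 2 ^ i) := by
            refine add_le_add le_rfl (mul_le_mul_of_nonneg_left ?_ (by positivity))
            rw [Finset.sum_const, nsmul_eq_mul]
            refine mul_le_mul_of_nonneg_right ?_ (by positivity)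
            rw [hK]; exact_mod_cast hZcard
        _ = lam * W + 2 ^ i * (2 ^ m * Real.exp (-L)) := by
            have h9 : Real.exp (-lam) * K = Real.exp (-L) := by
              rw [hlam, neg_add, Real.exp_add, Real.exp_neg (Real.log K), Real.exp_log hK0]
              field_simp
            rw [← h9]; ring
        _ ≤ lam * W + 2 ^ i * Fm A m b I J := by
            refine add_le_add le_rfl (mul_le_mul_of_nonneg_left hF (by positivity))
        _ = (lam + 1) * W := by rw [← hWF]; ring
    -- the total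
    set T := ∑ x ∈ cos b I, ∑ t ∈ I, (av (row A x) x (J.erase t)) ^ m with hT
    set R := 3 + (r : ℝ) + (L + Real.log K + 1) / β with hR
    have hTlow : (i - R) * W ≤ T := by
      have h1 : ∑ x ∈ R0, (g x ^ m * (i - r - 1) - g x ^ m * Hs (zc x) x) ≤ T := by
        rw [hT, hdecomp]
        have e1 : 0 ≤ ∑ x ∈ Lo, ∑ t ∈ I, (av (row A x) x (J.erase t)) ^ m :=
          Finset.sum_nonneg fun x _ => hrow0 x
        have e2 : 0 ≤ ∑ x ∈ S, ∑ t ∈ I, (av (row A x) x (J.erase t)) ^ m :=
          Finset.sum_nonneg fun x _ => hrow0 x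
        have e3 : ∑ x ∈ R0, (g x ^ m * (i - r - 1) - g x ^ m * Hs (zc x) x) ≤
            ∑ x ∈ R0, ∑ t ∈ I, (av (row A x) x (J.erase t)) ^ m := by
          refine Finset.sum_le_sum fun x hx => ?_
          have hx' := Finset.mem_filter.1 hx
          refine le_trans ?_ (hrow x hx'.1 hx'.2.1)
          have h2 : Hb (zc x) x ≤ r := (not_le.1 hx'.2.2).le
          have h3 : 0 ≤ g x ^ m := pow_nonneg (hg0 x) m
          nlinarith
        linarith
      have h2 : ∑ x ∈ R0, (g x ^ m * (i - r - 1) - g x ^ m * Hs (zc x) x) =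
          (i - r - 1) * ∑ x ∈ R0, g x ^ m - ∑ x ∈ R0, g x ^ m * Hs (zc x) x := by
        rw [Finset.sum_sub_distrib, ← Finset.sum_mul]; ring
      have h3 : ∑ x ∈ R0, g x ^ m * Hs (zc x) x ≤ (lam + 1) / β * W := by
        rw [div_mul_eq_mul_div, le_div_iff₀ hβ0]
        linarith
      have h4 := hdecomp fun x => g x ^ m
      have h5 : ∑ x ∈ R0, g x ^ m ≤ W := by
        have e1 : 0 ≤ ∑ x ∈ Lo, g x ^ m := Finset.sum_nonneg fun x _ => pow_nonneg (hg0 x) m
        have e2 : 0 ≤ ∑ x ∈ S, g x ^ m := Finset.sum_nonneg fun x _ => pow_nonneg (hg0 x) m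
        rw [hW]; linarith
      have h6 : (i - r - 1 : ℝ) * ∑ x ∈ R0, g x ^ m ≥ i * W - 2 * W - (r + 1) * W := by
        have e3 : (i : ℝ) * ∑ x ∈ R0, g x ^ m ≥ i * W - 2 * W := by
          have e4 : ∑ x ∈ R0, g x ^ m = W - ∑ x ∈ Lo, g x ^ m - ∑ x ∈ S, g x ^ m := by
            rw [hW]; linarith
          rw [e4]; linarith
        have e5 : ((r : ℝ) + 1) * ∑ x ∈ R0, g x ^ m ≤ (r + 1) * W :=
          mul_le_mul_of_nonneg_left h5 (by positivity)
        linarith
      have h7 : (i - R) * W = i * W - 2 * W - (r + 1) * W - (lam + 1) / β * W := by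
        rw [hR, hlam]; ring
      linarith
    -- averaging over the halves
    have hTF : T = ∑ t ∈ I, 2 ^ (i - 1) * (Fm A m (Function.update b t 0) (I.erase t) (J.erase t) +
        Fm A m (Function.update b t 1) (I.erase t) (J.erase t)) := by
      rw [hT, Finset.sum_comm]
      refine Finset.sum_congr rfl fun t ht => ?_
      rw [two_halves _ b I t ht]
      unfold Fm
      rw [Finset.card_erase_of_mem ht, ← hi]
      field_simp
    by_contra hcon
    push Not at hcon
    have h1 : T < ∑ t ∈ I, 2 ^ (i - 1) * (2 * (Fm A m b I J * (1 - R / i))) := by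
      rw [hTF]
      refine Finset.sum_lt_sum_of_nonempty (Finset.card_pos.1 hI) fun t ht => ?_
      refine mul_lt_mul_of_pos_left ?_ (by positivity)
      have e1 := hcon t ht (Function.update b t 0)
      have e2 := hcon t ht (Function.update b t 1)
      linarith
    have h2 : ∑ t ∈ I, (2 : ℝ) ^ (i - 1) * (2 * (Fm A m b I J * (1 - R / i))) = (i - R) * W := by
      rw [Finset.sum_const, nsmul_eq_mul, ← hi, hWF]
      have h3 : (2 : ℝ) ^ i = 2 ^ (i - 1) * 2 := by
        rw [← pow_succ]; congr 1; omega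
      rw [h3]
      field_simp
    linarith

end GHDPoly
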