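import Mathlib
import Pool.Agent.Lib.GHDPoly.Step

/-!
# The chain of subcubes
-/

open Finset

namespace GHDPoly

open GHDRace GHDXor

variable {n : ℕ}

lemma Fm_le (A : (Fin n → ZMod 2) → (Fin n → ZMod 2) → Bool) (m : ℕ)
    (b : Fin n → ZMod 2) (I J : Finset (Fin n)) : Fm A m b I J ≤ 2 ^ m := by
  unfold Fm
  rw [div_le_iff₀ (by positivity)]
  calc ∑ x ∈ cos b I, (av (row A x) x J) ^ m ≤ ∑ _x ∈ cos b I, (2 : ℝ) ^ m :=
        Finset.sum_le_sum fun x _ => pow_le_pow_left₀ (av_nonneg _ (row_nonneg A x) _ _)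
          (av_le _ 2 (row_le A x) _ _) m
    _ = _ := by rw [Finset.sum_const, card_cos, nsmul_eq_mul]; push_cast; ring

lemma Fm_zero (A : (Fin n → ZMod 2) → (Fin n → ZMod 2) → Bool) (m k : ℕ) (hm : 1 ≤ m)
    (hnear : ∀ x y : Fin n → ZMod 2, (univ.filter fun i => x i ≠ y i).card ≤ k → A x y = true)
    (b : Fin n → ZMod 2) (I J : Finset (Fin n)) (hJ : J.card ≤ k) : Fm A m b I J = 0 := by
  unfold Fm
  have h1 : ∀ x : Fin n → ZMod 2, av (row A x) x J = 0 := by
    intro x
    unfold av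
    rw [Finset.sum_eq_zero, zero_div]
    intro y hy
    unfold row
    rw [hnear x y]
    · simp [sg]
    · refine le_trans (Finset.card_le_card fun i hi => ?_) hJ
      by_contra h
      exact (Finset.mem_filter.1 hi).2 (mem_cos.1 hy i h).symm
  rw [Finset.sum_eq_zero, zero_div]
  intro x _
  rw [h1, zero_pow (by omega)]

lemma q_ge (δ : ℝ) (hδ : 0 < δ) (hδ1 : δ ≤ 1) :
    Real.exp (δ / 12) ≤ 2 * (1 + δ / 4) / (2 + δ / 4) := by
  have h1 := Real.exp_bound_div_one_sub_of_interval (x := δ / 12) (by positivity) (by linarith)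
  refine h1.trans ?_
  rw [div_le_div_iff₀ (by linarith) (by linarith)]
  nlinarith

lemma rpow_step (c i p : ℝ) (hc : 0 ≤ c) (hi : 1 < i) (hp : 1 ≤ p) :
    (c / i) ^ p * (1 + p / i) ≤ (c / (i - 1)) ^ p := by
  have hi0 : 0 < i := by linarith
  have hi1 : 0 < i - 1 := by linarith
  have h1 : c / (i - 1) = c / i * (1 + 1 / (i - 1)) := by field_simp; ring
  rw [h1, Real.mul_rpow (by positivity) (by positivity)]
  refine mul_le_mul_of_nonneg_left ?_ (by positivity)
  have h2 := one_add_mul_self_le_rpow_one_add (s := 1 / (i - 1)) (by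
    have : 0 ≤ 1 / (i - 1) := by positivity
    linarith) hp
  refine le_trans ?_ h2
  have h3 : p / i ≤ p * (1 / (i - 1)) := by
    rw [mul_one_div]
    exact div_le_div_of_nonneg_left (by linarith) hi1 (by linarith)
  linarith

theorem chain (A : (Fin n → ZMod 2) → (Fin n → ZMod 2) → Bool) (d k : ℕ) (hd1 : 1 ≤ d)
    (hd : ∀ S : Finset (Fin n → ZMod 2), Shat A S → S.card ≤ d)
    (hk : 1 ≤ k) (hkn : k ≤ n)
    (hnear : ∀ x y : Fin n → ZMod 2, (univ.filter fun i => x i ≠ y i).card ≤ k → A x y = true)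
    (δ : ℝ) (hδ : 0 < δ) (hδ14 : δ ≤ 1 / 14) (a m : ℕ) (ha : 48 / δ ^ 2 ≤ a) (hm : m = a * d)
    (Ls Y0 p : ℝ)
    (hLs : 48 / δ ^ 2 * (1 + Real.log n + d * Real.log (10 * (m : ℝ) ^ 2 * (n : ℝ) ^ 3)) ≤ Ls)
    (hp : 1 + 10 * δ ≤ p) (hT : Y0 * (2 * n / k) ^ p ≤ δ * k / 200) :
    ∀ (N : ℕ) (I J : Finset (Fin n)) (b : Fin n → ZMod 2) (L : ℝ), I.card + J.card = N → I ⊆ J →
      k ≤ J.card → (k : ℝ) ≤ 2 * I.card → 2 ^ m * Real.exp (-L) ≤ Fm A m b I J →
      L + δ / 24 * (J.card - I.card) + Ls ≤ Y0 * (n / I.card) ^ p → False := by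
  classical
  intro N
  induction N using Nat.strong_induction_on with
  | _ N ih =>
  intro I J b L hN hIJ hkJ hkI hF hY
  -- constants
  have hk0 : (1 : ℝ) ≤ k := by exact_mod_cast hk
  have hn1 : (1 : ℝ) ≤ n := by
    have : 1 ≤ n := hk.trans hkn
    exact_mod_cast this
  have hδ2 : 0 < δ ^ 2 := by positivity
  have ha2 : (48 : ℝ) ≤ a := by
    refine le_trans ?_ ha
    rw [le_div_iff₀ hδ2]
    nlinarith
  have ha0 : (0 : ℝ) < a := by linarith
  have haδ : 1 / (a : ℝ) ≤ δ ^ 2 / 48 := by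
    rw [div_le_iff₀ hδ2] at ha
    rw [div_le_div_iff₀ ha0 (by norm_num)]
    linarith
  have hd0 : (1 : ℝ) ≤ d := by exact_mod_cast hd1
  have hma : (m : ℝ) = a * d := by rw [hm]; push_cast; ring
  have hm48 : (48 : ℝ) ≤ m := by rw [hma]; nlinarith
  have hm0 : (0 : ℝ) < m := by linarith
  have hm2 : 2 ≤ m := by
    have : (2 : ℝ) ≤ m := by linarith
    exact_mod_cast this
  have hδm : 1 ≤ δ * m := by
    rw [div_le_iff₀ hδ2] at ha
    have e1 : (a : ℝ) ≤ m := by rw [hma]; nlinarith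
    have e2 : 48 ≤ (δ * m) * δ := by nlinarith
    nlinarith
  have hp0 : 1 ≤ p := by linarith
  set Q := 1 + Real.log n + d * Real.log (10 * (m : ℝ) ^ 2 * (n : ℝ) ^ 3) with hQ
  have hlogn : 0 ≤ Real.log n := Real.log_nonneg hn1
  have hbig : (1 : ℝ) ≤ 10 * (m : ℝ) ^ 2 * (n : ℝ) ^ 3 := by
    have e1 : (1 : ℝ) ≤ (m : ℝ) ^ 2 := one_le_pow₀ (by linarith)
    have e2 : (1 : ℝ) ≤ (n : ℝ) ^ 3 := one_le_pow₀ hn1
    nlinarith
  have hQ1 : 1 ≤ Q := by
    have := Real.log_nonneg hbig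
    have e1 : 0 ≤ (d : ℝ) * Real.log (10 * (m : ℝ) ^ 2 * (n : ℝ) ^ 3) := by positivity
    rw [hQ]; linarith
  have hLsQ : Q ≤ δ ^ 2 / 48 * Ls := by
    rw [div_mul_eq_mul_div, div_le_iff₀ hδ2] at hLs
    linarith
  have hLs0 : 0 < Ls := by
    by_contra h
    have : δ ^ 2 / 48 * Ls ≤ 0 := mul_nonpos_of_nonneg_of_nonpos (by positivity) (not_lt.1 h)
    linarith
  -- `L ≥ 0`
  have hL0 : 0 ≤ L := by
    have h1 := hF.trans (Fm_le A m b I J)
    have h2 : Real.exp (-L) ≤ 1 := by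
      have : (0 : ℝ) < 2 ^ m := by positivity
      exact le_of_mul_le_mul_left (by linarith) this
    rw [Real.exp_le_one_iff] at h2
    linarith
  set i := I.card with hi
  have hi0 : (0 : ℝ) < i := by linarith
  have hIJc : (i : ℝ) ≤ J.card := by exact_mod_cast Finset.card_le_card hIJ
  have hin : (i : ℝ) ≤ n := by
    have : I.card ≤ n := by simpa using Finset.card_le_univ I
    exact_mod_cast this
  set Y := L + δ / 24 * (J.card - i) + Ls with hYdef
  have hJI : 0 ≤ δ / 24 * ((J.card : ℝ) - i) := mul_nonneg (by positivity) (by linarith)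
  have hY0 : 0 < Y0 := by
    have h1 : 0 < Y0 * (n / i : ℝ) ^ p := by linarith
    have h2 : (0 : ℝ) < (n / i : ℝ) ^ p := by positivity
    exact (mul_pos_iff_of_pos_right h2).1 h1
  have hYT : Y ≤ δ * k / 200 := by
    refine hY.trans (le_trans ?_ hT)
    refine mul_le_mul_of_nonneg_left ?_ hY0.le
    refine Real.rpow_le_rpow (by positivity) ?_ (by linarith)
    rw [div_le_div_iff₀ hi0 (by linarith)]
    nlinarith
  have hδk : δ * k / 200 ≤ k / 2800 := by nlinarith
  have hgap : (J.card : ℝ) - i ≤ k * (24 / 200) := by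
    have e1 : δ / 24 * ((J.card : ℝ) - i) ≤ δ * k / 200 := by linarith
    have e2 : δ * ((J.card : ℝ) - i) ≤ δ * (k * (24 / 200)) := by linarith
    exact le_of_mul_le_mul_left e2 hδ
  by_cases hJk : J.card ≤ k
  · have h1 := Fm_zero A m k (by omega) hnear b I J hJk
    rw [h1] at hF
    have : (0 : ℝ) < 2 ^ m * Real.exp (-L) := by positivity
    linarith
  push Not at hJk
  have hJk' : (k : ℝ) + 1 ≤ J.card := by exact_mod_cast hJk
  have hibig : (k : ℝ) * (7 / 8) + 1 ≤ i := by linarith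
  have hi1 : 1 ≤ I.card := by
    have : (1 : ℝ) ≤ (I.card : ℝ) := by linarith
    exact_mod_cast this
  -- the parameters of the step
  set Lb := max L Ls with hLb
  have hLb1 : L ≤ Lb := le_max_left _ _
  have hLb2 : Ls ≤ Lb := le_max_right _ _
  have hLbY : Lb ≤ Y := by
    rw [hLb]
    refine max_le ?_ ?_ <;> linarith
  have hLb0 : 0 < Lb := by linarith
  have hFb : 2 ^ m * Real.exp (-Lb) ≤ Fm A m b I J := by
    refine le_trans (mul_le_mul_of_nonneg_left ?_ (by positivity)) hF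
    exact Real.exp_le_exp.2 (by linarith)
  set M := ⌈8 * (m : ℝ) ^ 2 * (i : ℝ) ^ 3 * Real.exp (Lb / m)⌉₊ with hMdef
  have hM1 := Nat.le_ceil (8 * (m : ℝ) ^ 2 * (i : ℝ) ^ 3 * Real.exp (Lb / m))
  have hM2 : (M : ℝ) + 1 ≤ 10 * (m : ℝ) ^ 2 * (n : ℝ) ^ 3 * Real.exp (Lb / m) := by
    have h1 := Nat.ceil_lt_add_one (a := 8 * (m : ℝ) ^ 2 * (i : ℝ) ^ 3 * Real.exp (Lb / m))
      (by positivity)
    have h2 : (i : ℝ) ^ 3 ≤ (n : ℝ) ^ 3 := pow_le_pow_left₀ hi0.le hin 3
    have h3 : (1 : ℝ) ≤ Real.exp (Lb / m) := Real.one_le_exp (by positivity)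
    have h4 : (1 : ℝ) ≤ (m : ℝ) ^ 2 * (n : ℝ) ^ 3 * Real.exp (Lb / m) := by
      have e1 : (1 : ℝ) ≤ (m : ℝ) ^ 2 := one_le_pow₀ (by linarith)
      have e2 : (1 : ℝ) ≤ (n : ℝ) ^ 3 := one_le_pow₀ hn1
      have e3 : (1 : ℝ) ≤ (m : ℝ) ^ 2 * (n : ℝ) ^ 3 := one_le_mul_of_one_le_of_one_le e1 e2
      exact one_le_mul_of_one_le_of_one_le e3 h3
    have h5 : 8 * (m : ℝ) ^ 2 * (i : ℝ) ^ 3 * Real.exp (Lb / m) ≤
        8 * (m : ℝ) ^ 2 * (n : ℝ) ^ 3 * Real.exp (Lb / m) := by
      have : 0 ≤ 8 * (m : ℝ) ^ 2 := by positivity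
      exact mul_le_mul_of_nonneg_right (mul_le_mul_of_nonneg_left h2 this) (by positivity)
    have h6 : (M : ℝ) < 8 * (m : ℝ) ^ 2 * (i : ℝ) ^ 3 * Real.exp (Lb / m) + 1 := h1
    linarith
  set K : ℝ := (((M + 1) ^ d : ℕ) : ℝ) with hK
  have hK1 : 1 ≤ K := by
    rw [hK]
    exact_mod_cast Nat.one_le_pow d (M + 1) (by omega)
  have hlogK : Real.log K ≤ d * Real.log (10 * (m : ℝ) ^ 2 * (n : ℝ) ^ 3) + Lb / a := by
    rw [hK]
    push_cast
    rw [Real.log_pow]
    have h1 : Real.log ((M : ℝ) + 1) ≤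
        Real.log (10 * (m : ℝ) ^ 2 * (n : ℝ) ^ 3) + Lb / m := by
      have h2 := Real.log_le_log (by positivity) hM2
      rwa [Real.log_mul (by positivity) (by positivity), Real.log_exp] at h2
    have h3 := mul_le_mul_of_nonneg_left h1 (by linarith : (0 : ℝ) ≤ d)
    refine h3.trans (le_of_eq ?_)
    rw [mul_add, hma]
    congr 1
    field_simp
  have hLba : Lb / a ≤ δ ^ 2 / 48 * Lb := by
    rw [div_eq_mul_one_div, mul_comm]
    exact mul_le_mul_of_nonneg_right haδ hLb0.le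
  have hQLb : Q ≤ δ ^ 2 / 48 * Lb :=
    hLsQ.trans (mul_le_mul_of_nonneg_left hLb2 (by positivity))
  set r := ⌈δ * Lb⌉₊ with hr
  have hr1 : δ * Lb ≤ r := Nat.le_ceil _
  have hr2 : (r : ℝ) < δ * Lb + 1 := Nat.ceil_lt_add_one (by positivity)
  have hr0 : 1 ≤ r := Nat.one_le_ceil_iff.2 (by positivity)
  rcases step A d hd δ hδ (by linarith) m hδm hm2 b I J hIJ hi1 Lb hLb0.le hFb M hM1 r with
    ⟨t, ht, b', hstep⟩ | ⟨I', b', hI', hcard, hstep⟩
  · -- a free coordinate is dropped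
    rw [← hi, ← hK] at hstep
    set R := 3 + (r : ℝ) + (Lb + Real.log K + 1) / (1 - 2 * δ) with hR
    have hRle : R ≤ (1 + 6 * δ) * Lb := by
      have e1 : (Lb + Real.log K + 1) / (1 - 2 * δ) ≤ (1 + 4 * δ) * Lb := by
        rw [div_le_iff₀ (by linarith)]
        have e2 : Lb + Real.log K + 1 ≤ Lb * (1 + δ ^ 2 / 24) := by linarith
        refine e2.trans ?_
        have e3 : 1 + δ ^ 2 / 24 ≤ (1 + 4 * δ) * (1 - 2 * δ) := by nlinarith
        calc Lb * (1 + δ ^ 2 / 24) ≤ Lb * ((1 + 4 * δ) * (1 - 2 * δ)) :=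
              mul_le_mul_of_nonneg_left e3 hLb0.le
          _ = _ := by ring
      have e4 : 4 ≤ δ * Lb := by
        have e5 : 48 ≤ δ ^ 2 * Lb := by linarith
        nlinarith
      rw [hR]; linarith
    have hR0 : 0 ≤ R := by
      have := Real.log_nonneg hK1
      have e1 : 0 ≤ (Lb + Real.log K + 1) / (1 - 2 * δ) :=
        div_nonneg (by linarith) (by linarith)
      rw [hR]
      positivity
    have hRi : R / i ≤ δ := by
      rw [div_le_iff₀ hi0]
      have e1 : R ≤ 2 * (δ * k / 200) := by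
        refine hRle.trans ?_
        have e2 : Lb ≤ δ * k / 200 := hLbY.trans hYT
        have e3 : (1 + 6 * δ) * Lb ≤ 2 * Lb := mul_le_mul_of_nonneg_right (by linarith) hLb0.le
        linarith
      have e4 : δ * (k * (7 / 8)) ≤ δ * i := mul_le_mul_of_nonneg_left (by linarith) hδ.le
      linarith
    have hRi0 : 0 ≤ R / i := by positivity
    have h1R : 0 < 1 - R / i := by linarith
    have hcI : ((I.erase t).card : ℝ) = i - 1 := by
      rw [Finset.card_erase_of_mem ht, Nat.cast_sub hi1]; push_cast; ring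
    have hcJ : ((J.erase t).card : ℝ) = J.card - 1 := by
      rw [Finset.card_erase_of_mem (hIJ ht), Nat.cast_sub (by omega)]; push_cast; ring
    refine ih ((I.erase t).card + (J.erase t).card) ?_ (I.erase t) (J.erase t) b'
      (L - Real.log (1 - R / i)) rfl (Finset.erase_subset_erase t hIJ) ?_ ?_ ?_ ?_
    · rw [Finset.card_erase_of_mem ht, Finset.card_erase_of_mem (hIJ ht)]
      omega
    · rw [Finset.card_erase_of_mem (hIJ ht)]; omega
    · rw [hcI]; linarith
    · refine le_trans ?_ hstep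
      rw [neg_sub, sub_eq_add_neg, Real.exp_add, Real.exp_log h1R]
      have := mul_le_mul_of_nonneg_right hF h1R.le
      linarith
    · rw [hcI, hcJ]
      have e1 : -Real.log (1 - R / i) ≤ (1 + 2 * δ) * (R / i) := by
        have e2 := Real.one_sub_inv_le_log_of_pos h1R
        have e3 : (1 - R / i)⁻¹ ≤ 1 + (1 + 2 * δ) * (R / i) := by
          rw [inv_le_comm₀ h1R (by positivity), inv_le_iff_one_le_mul₀ (by positivity)]
          have e4 : 0 ≤ (R / i) * (2 * δ - (1 + 2 * δ) * (R / i)) := by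
            refine mul_nonneg hRi0 ?_
            nlinarith
          nlinarith
        linarith
      have e5 : (1 + 2 * δ) * (R / i) ≤ Y * (p / i) := by
        have e6 : (1 + 2 * δ) * R ≤ Y * p := by
          calc (1 + 2 * δ) * R ≤ (1 + 2 * δ) * ((1 + 6 * δ) * Lb) :=
                mul_le_mul_of_nonneg_left hRle (by linarith)
            _ = ((1 + 2 * δ) * (1 + 6 * δ)) * Lb := by ring
            _ ≤ p * Lb := mul_le_mul_of_nonneg_right (by nlinarith) hLb0.le
            _ ≤ p * Y := mul_le_mul_of_nonneg_left hLbY (by linarith)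
            _ = _ := by ring
        rw [mul_div_assoc', mul_div_assoc']
        exact div_le_div_of_nonneg_right e6 hi0.le
      have e7 := rpow_step (n : ℝ) i p (by linarith) (by linarith) hp0
      have e8 : Y * (1 + p / i) ≤ Y0 * (n / i) ^ p * (1 + p / i) :=
        mul_le_mul_of_nonneg_right hY (by positivity)
      have e9 : Y0 * (n / i) ^ p * (1 + p / i) ≤ Y0 * (n / (i - 1)) ^ p := by
        rw [mul_assoc]
        exact mul_le_mul_of_nonneg_left e7 hY0.le
      have e10 : L - Real.log (1 - R / i) + δ / 24 * ((J.card : ℝ) - 1 - (i - 1)) + Ls =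
          Y + -Real.log (1 - R / i) := by rw [hYdef]; ring
      rw [e10]
      linarith
  · -- `r` coordinates are protected
    rw [← hi, ← hK] at hstep
    have hcI : (I'.card : ℝ) = i - r := by
      have : (I'.card : ℝ) + r = i := by exact_mod_cast hcard
      linarith
    have hδLb : δ * Lb ≤ k / 2800 := by
      have e1 : Lb ≤ k / 2800 := hLbY.trans (hYT.trans hδk)
      nlinarith
    have hiK0 : 0 < (i : ℝ) * K := by positivity
    have hlogiK : Real.log (i * K) ≤ δ / 24 * r := by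
      rw [Real.log_mul (by positivity) (by positivity)]
      have e1 : Real.log i ≤ Real.log n := Real.log_le_log hi0 hin
      have e2 : Real.log i + Real.log K ≤ δ ^ 2 / 24 * Lb := by linarith
      have e3 : δ ^ 2 / 24 * Lb ≤ δ / 24 * r := by
        have := mul_le_mul_of_nonneg_left hr1 (by positivity : 0 ≤ δ / 24)
        linarith
      linarith
    refine ih (I'.card + J.card) ?_ I' J b' (L + Real.log (i * K) - δ / 12 * r) rfl
      (hI'.trans hIJ) hkJ ?_ ?_ ?_
    · omega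
    · rw [hcI]; linarith
    · refine le_trans ?_ hstep
      have e1 : Real.exp (δ / 12) ^ r ≤ (2 * (1 + δ / 4) / (2 + δ / 4)) ^ r :=
        pow_le_pow_left₀ (Real.exp_pos _).le (q_ge δ hδ (by linarith)) r
      have e2 : Real.exp (-(L + Real.log (i * K) - δ / 12 * r)) =
          Real.exp (δ / 12) ^ r * (Real.exp (-L) / (i * K)) := by
        have e3 : -(L + Real.log (i * K) - δ / 12 * r) =
            r * (δ / 12) + (-L + -Real.log (i * K)) := by ring
        rw [e3, Real.exp_add, Real.exp_nat_mul, Real.exp_add, Real.exp_neg (Real.log _),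
          Real.exp_log hiK0]
        rfl
      rw [e2]
      calc 2 ^ m * (Real.exp (δ / 12) ^ r * (Real.exp (-L) / (i * K)))
          = Real.exp (δ / 12) ^ r * ((2 ^ m * Real.exp (-L)) / (i * K)) := by ring
        _ ≤ (2 * (1 + δ / 4) / (2 + δ / 4)) ^ r * (Fm A m b I J / (i * K)) :=
            mul_le_mul e1 (div_le_div_of_nonneg_right hF hiK0.le) (by positivity) (by positivity)
    · rw [hcI]
      have hir : 0 < (i : ℝ) - r := by linarith
      have e1 : Y0 * (n / i : ℝ) ^ p ≤ Y0 * (n / (i - r)) ^ p := by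
        refine mul_le_mul_of_nonneg_left ?_ hY0.le
        refine Real.rpow_le_rpow (by positivity) ?_ (by linarith)
        exact div_le_div_of_nonneg_left (by linarith) hir (by
          have : (0 : ℝ) ≤ r := by positivity
          linarith)
      refine le_trans ?_ (hY.trans e1)
      rw [hYdef]
      linarith

end GHDPoly
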