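import Mathlib
import Pool.Agent.Lib.GHDPoly.Chain

/-!
# The lower bound
-/

open Finset

namespace GHDPoly

open GHDRace GHDXor

variable {n : ℕ}

lemma bitflip (p : ZMod 2) : (!decide (p = 1)) = decide (p + 1 = 1) := by
  revert p; decide

lemma cos_univ (b : Fin n → ZMod 2) : cos b univ = univ := by
  ext x; simp [mem_cos]

/-- the start of the chain -/
lemma Fm_univ (A : (Fin n → ZMod 2) → (Fin n → ZMod 2) → Bool) (m : ℕ) (b : Fin n → ZMod 2)
    (h : ∑ x, ∑ y, sg (A x y) ≤ 0) : 1 ≤ Fm A m b univ univ := by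
  unfold Fm
  have hc : (univ : Finset (Fin n)).card = n := by simp
  have hcard : ((univ : Finset (Fin n → ZMod 2)).card : ℝ) = 2 ^ n := by
    have := card_cos (0 : Fin n → ZMod 2) univ
    rw [cos_univ, hc] at this
    rw [this]; push_cast; rfl
  rw [cos_univ, hc, le_div_iff₀ (by positivity), one_mul]
  have h1 : ∀ x : Fin n → ZMod 2, 1 + m * (av (row A x) x univ - 1) ≤ av (row A x) x univ ^ m := by
    intro x
    have h2 := one_add_mul_le_pow (a := av (row A x) x univ - 1) (by
      have := av_nonneg (row A x) (row_nonneg A x) x univ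
      linarith) m
    have h3 : 1 + (av (row A x) x univ - 1) = av (row A x) x univ := by ring
    rwa [h3] at h2
  have h2 : ∑ x : Fin n → ZMod 2, (1 + m * (av (row A x) x univ - 1)) ≤
      ∑ x : Fin n → ZMod 2, av (row A x) x univ ^ m := Finset.sum_le_sum fun x _ => h1 x
  refine le_trans ?_ h2
  have h3 : ∀ x : Fin n → ZMod 2, av (row A x) x univ = 1 - (∑ y, sg (A x y)) / 2 ^ n := by
    intro x
    unfold av row
    rw [cos_univ, hc, Finset.sum_sub_distrib, Finset.sum_const, nsmul_eq_mul, hcard]
    field_simp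
  simp_rw [h3]
  rw [Finset.sum_add_distrib, Finset.sum_const, nsmul_eq_mul, hcard, mul_one, ← Finset.mul_sum]
  have h4 : ∑ x : Fin n → ZMod 2, (1 - (∑ y, sg (A x y)) / 2 ^ n - 1) =
      -((∑ x : Fin n → ZMod 2, ∑ y, sg (A x y)) / 2 ^ n) := by
    rw [Finset.sum_div, ← Finset.sum_neg_distrib]
    exact Finset.sum_congr rfl fun x _ => by ring
  rw [h4]
  have h5 : 0 ≤ -((∑ x : Fin n → ZMod 2, ∑ y, sg (A x y)) / 2 ^ n) := by
    rw [neg_nonneg]
    exact div_nonpos_of_nonpos_of_nonneg h (by positivity)
  have : (0 : ℝ) ≤ m := by positivity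
  nlinarith

/-- a completion with nonpositive sum and small VC dimension does not exist -/
theorem no_completion (A : (Fin n → ZMod 2) → (Fin n → ZMod 2) → Bool) (d k : ℕ) (hd1 : 1 ≤ d)
    (hd : ∀ S : Finset (Fin n → ZMod 2), Shat A S → S.card ≤ d)
    (hk : 1 ≤ k) (hkn : k ≤ n)
    (hnear : ∀ x y : Fin n → ZMod 2, (univ.filter fun i => x i ≠ y i).card ≤ k → A x y = true)
    (hsum : ∑ x, ∑ y, sg (A x y) ≤ 0)
    (δ : ℝ) (hδ : 0 < δ) (hδ14 : δ ≤ 1 / 14) (a : ℕ) (ha : 48 / δ ^ 2 ≤ a)
    (hT : (((a * d : ℕ) : ℝ) * Real.log 2 + 48 / δ ^ 2 * (1 + Real.log n +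
      d * Real.log (10 * ((a * d : ℕ) : ℝ) ^ 2 * (n : ℝ) ^ 3))) * (2 * n / k) ^ (1 + 10 * δ) ≤
        δ * k / 200) : False := by
  set m := a * d with hm
  set Ls := 48 / δ ^ 2 * (1 + Real.log n + d * Real.log (10 * (m : ℝ) ^ 2 * (n : ℝ) ^ 3)) with hLs
  have hn0 : (0 : ℝ) < n := by
    have : 0 < n := by omega
    exact_mod_cast this
  have hc : (univ : Finset (Fin n)).card = n := by simp
  refine chain A d k hd1 hd hk hkn hnear δ hδ hδ14 a m ha hm Ls (m * Real.log 2 + Ls)
    (1 + 10 * δ) le_rfl le_rfl hT _ univ univ 0 (m * Real.log 2) rfl Subset.rfl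
    (by rw [hc]; exact hkn) ?_ ?_ ?_
  · rw [hc]
    have : (k : ℝ) ≤ n := by exact_mod_cast hkn
    linarith
  · have h1 : (2 : ℝ) ^ m * Real.exp (-(m * Real.log 2)) = 1 := by
      rw [Real.exp_neg, Real.exp_nat_mul, Real.exp_log (by norm_num)]
      field_simp
    rw [h1]
    exact Fm_univ A m 0 hsum
  · rw [hc, div_self hn0.ne', Real.one_rpow, sub_self]
    linarith

/-- the constant -/
noncomputable def C1 (δ : ℝ) (a : ℕ) : ℝ := a + 48 / δ ^ 2 * (10 + 2 * Real.log a)

lemma C1_bound (δ : ℝ) (hδ : 0 < δ) (a d n : ℕ) (ha : 1 ≤ a) (hd : 1 ≤ d) (hdn : d ≤ n)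
    (hn : 3 ≤ n) :
    ((a * d : ℕ) : ℝ) * Real.log 2 + 48 / δ ^ 2 * (1 + Real.log n +
      d * Real.log (10 * ((a * d : ℕ) : ℝ) ^ 2 * (n : ℝ) ^ 3)) ≤ C1 δ a * (d * Real.log n) := by
  have hn0 : (3 : ℝ) ≤ n := by exact_mod_cast hn
  have ha0 : (1 : ℝ) ≤ a := by exact_mod_cast ha
  have hd0 : (1 : ℝ) ≤ d := by exact_mod_cast hd
  have hdn' : (d : ℝ) ≤ n := by exact_mod_cast hdn
  have hlogn : 1 ≤ Real.log n := by
    rw [Real.le_log_iff_exp_le (by linarith)]
    have := Real.exp_one_lt_d9
    linarith
  have hloga : 0 ≤ Real.log a := Real.log_nonneg ha0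
  have hlogd : Real.log d ≤ Real.log n := Real.log_le_log (by linarith) hdn'
  have hlog2 : Real.log 2 ≤ 1 := by
    have := Real.log_two_lt_d9
    linarith
  have hlog10 : Real.log 10 ≤ 3 := by
    have h1 : Real.log 10 ≤ Real.log (2 ^ 4) := Real.log_le_log (by norm_num) (by norm_num)
    rw [Real.log_pow] at h1
    have := Real.log_two_lt_d9
    push_cast at h1
    linarith
  have h1 : Real.log (10 * ((a * d : ℕ) : ℝ) ^ 2 * (n : ℝ) ^ 3) =
      Real.log 10 + 2 * (Real.log a + Real.log d) + 3 * Real.log n := by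
    push_cast
    rw [Real.log_mul (by positivity) (by positivity), Real.log_mul (by norm_num) (by positivity),
      Real.log_pow, Real.log_pow, Real.log_mul (by positivity) (by positivity)]
    push_cast; ring
  rw [h1]
  have h2 : (d : ℝ) * (Real.log 10 + 2 * (Real.log a + Real.log d) + 3 * Real.log n) ≤
      d * Real.log n * (8 + 2 * Real.log a) := by
    have e1 : Real.log 10 + 2 * (Real.log a + Real.log d) + 3 * Real.log n ≤
        Real.log n * (8 + 2 * Real.log a) := by nlinarith
    calc _ ≤ (d : ℝ) * (Real.log n * (8 + 2 * Real.log a)) :=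
          mul_le_mul_of_nonneg_left e1 (by linarith)
      _ = _ := by ring
  have h3 : (1 : ℝ) ≤ d * Real.log n := one_le_mul_of_one_le_of_one_le hd0 hlogn
  have h4 : Real.log n ≤ d * Real.log n := le_mul_of_one_le_left (by linarith) hd0
  have h5 : ((a * d : ℕ) : ℝ) * Real.log 2 ≤ a * (d * Real.log n) := by
    push_cast
    have e1 : (a : ℝ) * d * Real.log 2 ≤ a * d * 1 :=
      mul_le_mul_of_nonneg_left hlog2 (by positivity)
    have e2 : (a : ℝ) * d * 1 ≤ a * d * Real.log n :=
      mul_le_mul_of_nonneg_left hlogn (by positivity)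
    linarith
  have h6 : 48 / δ ^ 2 * (1 + Real.log n +
      d * (Real.log 10 + 2 * (Real.log a + Real.log d) + 3 * Real.log n)) ≤
      48 / δ ^ 2 * ((10 + 2 * Real.log a) * (d * Real.log n)) := by
    refine mul_le_mul_of_nonneg_left ?_ (by positivity)
    linarith
  unfold C1
  linarith

theorem main (δ₀ : ℝ) (hδ₀ : 0 < δ₀) : ∃ c : ℝ, 0 < c ∧ ∀ n k : ℕ, 2 * k < n →
    ∀ A : (Fin n → Bool) → (Fin n → Bool) → Bool,
      (∀ x y : Fin n → Bool, hammingDist x y ≤ k → A x y = true) →
      (∀ x y : Fin n → Bool, n - k ≤ hammingDist x y → A x y = false) →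
      ∃ S : Finset (Fin n → Bool),
        (∀ B ⊆ S, ∃ x : Fin n → Bool, ∀ y ∈ S, (A x y = true ↔ y ∈ B)) ∧
        c * k * ((k : ℝ) / n) ^ (1 + δ₀) ≤ S.card * Real.log n := by
  classical
  set δ := min (δ₀ / 10) (1 / 14) with hδdef
  have hδ : 0 < δ := lt_min (by positivity) (by norm_num)
  have hδ14 : δ ≤ 1 / 14 := min_le_right _ _
  have hδ10 : 10 * δ ≤ δ₀ := by
    have := min_le_left (δ₀ / 10) (1 / 14)
    rw [← hδdef] at this
    linarith
  set a := ⌈48 / δ ^ 2⌉₊ with ha
  have ha1 : 48 / δ ^ 2 ≤ a := Nat.le_ceil _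
  have ha0 : 1 ≤ a := Nat.one_le_ceil_iff.2 (by positivity)
  have hC1 : 1 ≤ C1 δ a := by
    unfold C1
    have e1 : (1 : ℝ) ≤ a := by exact_mod_cast ha0
    have e2 : 0 ≤ Real.log a := Real.log_nonneg e1
    have e3 : 0 ≤ 48 / δ ^ 2 * (10 + 2 * Real.log a) := by positivity
    linarith
  set p := 1 + 10 * δ with hp
  have hp0 : 0 ≤ p := by rw [hp]; positivity
  set c := δ / (200 * C1 δ a * 2 ^ p) with hc
  have h2p : (1 : ℝ) ≤ 2 ^ p := Real.one_le_rpow (by norm_num) hp0
  have hc0 : 0 < c := by
    rw [hc]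
    have : 0 < C1 δ a := by linarith
    positivity
  have hc1 : c ≤ 1 := by
    rw [hc, div_le_one (by
      have : 0 < C1 δ a := by linarith
      positivity)]
    have e1 : (1 : ℝ) ≤ C1 δ a * 2 ^ p := one_le_mul_of_one_le_of_one_le hC1 h2p
    nlinarith
  refine ⟨c, hc0, ?_⟩
  intro n k hkn A hnear hfar
  obtain ⟨S, hS, hmax⟩ := Finset.exists_max_image
    (Finset.univ.filter fun S : Finset (Fin n → Bool) => Shat A S)
    (fun S => S.card) ⟨∅, by
      simp only [Finset.mem_filter, Finset.mem_univ, true_and, Shat]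
      intro B _
      exact ⟨fun _ => true, by simp⟩⟩
  have hS' : Shat A S := (Finset.mem_filter.1 hS).2
  refine ⟨S, hS', ?_⟩
  have hd : ∀ T : Finset (Fin n → Bool), Shat A T → T.card ≤ S.card := fun T hT =>
    hmax T (Finset.mem_filter.2 ⟨Finset.mem_univ _, hT⟩)
  have hn0 : (1 : ℝ) ≤ n := by
    have : 1 ≤ n := by omega
    exact_mod_cast this
  have hlogn0 : 0 ≤ Real.log n := Real.log_nonneg hn0
  rcases Nat.eq_zero_or_pos k with hk | hk
  · subst hk
    simp only [Nat.cast_zero, mul_zero, zero_mul]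
    positivity
  have hn3 : 3 ≤ n := by omega
  have hk0 : (1 : ℝ) ≤ k := by exact_mod_cast hk
  have hlogn : 1 ≤ Real.log n := by
    rw [Real.le_log_iff_exp_le (by linarith)]
    have e1 := Real.exp_one_lt_d9
    have e2 : (3 : ℝ) ≤ n := by exact_mod_cast hn3
    linarith
  have hflip : ∀ x : Fin n → Bool, hammingDist x (fun i => !(x i)) = n := by
    intro x
    unfold hammingDist
    rw [Finset.filter_true_of_mem]
    · simp
    · intro i _
      exact (Bool.not_ne_self _).symm
  have hd1 : 1 ≤ S.card := by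
    have h1 : Shat A ({fun _ => true} : Finset (Fin n → Bool)) := by
      intro B hB
      rcases Finset.subset_singleton_iff.1 hB with rfl | rfl
      · refine ⟨fun _ => false, fun y hy => ?_⟩
        rw [Finset.mem_singleton.1 hy, hfar]
        · simp
        · have h2 := hflip (fun _ : Fin n => false)
          simp only [Bool.not_false] at h2
          rw [h2]; omega
      · refine ⟨fun _ => true, fun y hy => ?_⟩
        rw [Finset.mem_singleton.1 hy, hnear _ _ (by simp)]
        simp
    simpa using hd _ h1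
  by_contra hcon
  push Not at hcon
  have hkn1 : (k : ℝ) / n ≤ 1 := by
    rw [div_le_one (by linarith)]
    have : k ≤ n := by omega
    exact_mod_cast this
  have hkn0 : 0 < (k : ℝ) / n := by positivity
  have hpow : ((k : ℝ) / n) ^ (1 + δ₀) ≤ ((k : ℝ) / n) ^ p :=
    Real.rpow_le_rpow_of_exponent_ge hkn0 hkn1 (by rw [hp]; linarith)
  have hpow1 : ((k : ℝ) / n) ^ p ≤ 1 := Real.rpow_le_one hkn0.le hkn1 hp0
  have hcon2 : (S.card : ℝ) * Real.log n < c * k * ((k : ℝ) / n) ^ p :=
    lt_of_lt_of_le hcon (mul_le_mul_of_nonneg_left hpow (by positivity))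
  have hdk : S.card ≤ n := by
    have e1 : (S.card : ℝ) < k := by
      calc (S.card : ℝ) ≤ S.card * Real.log n := le_mul_of_one_le_right (by positivity) hlogn
        _ < c * k * ((k : ℝ) / n) ^ p := hcon2
        _ ≤ c * k * 1 := mul_le_mul_of_nonneg_left hpow1 (by positivity)
        _ ≤ 1 * k := by rw [mul_one]; exact mul_le_mul_of_nonneg_right hc1 (by positivity)
        _ = k := one_mul _
    have e2 : S.card < k := by exact_mod_cast e1
    omega
  have hT : (((a * S.card : ℕ) : ℝ) * Real.log 2 + 48 / δ ^ 2 * (1 + Real.log n +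
      S.card * Real.log (10 * ((a * S.card : ℕ) : ℝ) ^ 2 * (n : ℝ) ^ 3))) *
      (2 * n / k) ^ (1 + 10 * δ) ≤ δ * k / 200 := by
    have e1 := C1_bound δ hδ a S.card n ha0 hd1 hdk hn3
    have e2 : (0 : ℝ) < (2 * n / k : ℝ) ^ p := by positivity
    refine (mul_le_mul_of_nonneg_right e1 e2.le).trans ?_
    have e3 : (2 * n / k : ℝ) ^ p = 2 ^ p * (n / k) ^ p := by
      rw [mul_div_assoc, Real.mul_rpow (by norm_num) (by positivity)]
    have e4 : ((k : ℝ) / n) ^ p * (n / k) ^ p = 1 := by
      rw [← Real.mul_rpow (by positivity) (by positivity)]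
      have : (k : ℝ) / n * (n / k) = 1 := by field_simp
      rw [this, Real.one_rpow]
    have hC0 : 0 < C1 δ a := by linarith
    rw [e3]
    calc C1 δ a * (S.card * Real.log n) * (2 ^ p * (n / k) ^ p)
        ≤ C1 δ a * (c * k * ((k : ℝ) / n) ^ p) * (2 ^ p * (n / k) ^ p) := by
          refine mul_le_mul_of_nonneg_right (mul_le_mul_of_nonneg_left hcon2.le hC0.le)
            (by positivity)
      _ = C1 δ a * c * k * 2 ^ p * (((k : ℝ) / n) ^ p * (n / k) ^ p) := by ring
      _ = δ * k / 200 := by
          rw [e4, hc]; field_simp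
  -- coordinates
  let e : (Fin n → ZMod 2) → (Fin n → Bool) := fun z i => decide (z i = 1)
  have he : Function.Injective e := by
    intro v w hvw
    funext i
    have h1 := congrFun hvw i
    simp only [e] at h1
    revert h1
    generalize v i = p
    generalize w i = q
    revert p q
    decide
  have hdist : ∀ x y : Fin n → ZMod 2,
      hammingDist (e x) (e y) = (univ.filter fun i => x i ≠ y i).card := by
    intro x y
    unfold hammingDist
    congr 1
    ext i
    simp only [Finset.mem_filter, Finset.mem_univ, true_and, e]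
    generalize x i = p
    generalize y i = q
    revert p q
    decide
  rcases le_total (∑ x : Fin n → ZMod 2, ∑ y : Fin n → ZMod 2, sg (A (e x) (e y))) 0 with h | h
  · refine no_completion (fun x y => A (e x) (e y)) S.card k hd1 ?_ hk (by omega) ?_ h δ hδ hδ14 a
      ha1 hT
    · intro T hT
      have h1 : Shat A (T.image e) := by
        intro B hB
        obtain ⟨x, hx⟩ := hT (T.filter fun y => e y ∈ B) (Finset.filter_subset _ _)
        refine ⟨e x, fun y hy => ?_⟩
        obtain ⟨y', hy', rfl⟩ := Finset.mem_image.1 hy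
        have h2 : A (e x) (e y') = true ↔ y' ∈ T.filter fun y => e y ∈ B := hx y' hy'
        rw [h2]
        simp [hy']
      have h2 := hd _ h1
      rwa [Finset.card_image_of_injective _ he] at h2
    · intro x y hxy
      exact hnear _ _ (by rw [hdist]; exact hxy)
  · let e' : (Fin n → ZMod 2) → (Fin n → Bool) := fun z i => !(e z i)
    have he' : Function.Injective e' := by
      intro v w hvw
      apply he
      funext i
      have h1 := congrFun hvw i
      simp only [e'] at h1
      exact Bool.not_inj h1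
    have hee : ∀ y : Fin n → ZMod 2, e' y = e (y + 1) := by
      intro y
      funext i
      exact bitflip (y i)
    have hsum : ∑ x : Fin n → ZMod 2, ∑ y : Fin n → ZMod 2, sg (!(A (e x) (e' y))) ≤ 0 := by
      have h1 : ∀ v : Bool, sg (!v) = -sg v := by
        intro v; cases v <;> simp [sg]
      have h2 : ∀ x : Fin n → ZMod 2, ∑ y : Fin n → ZMod 2, sg (!(A (e x) (e' y))) =
          -∑ y : Fin n → ZMod 2, sg (A (e x) (e y)) := by
        intro x
        rw [← Finset.sum_neg_distrib]
        refine Fintype.sum_equiv (Equiv.addRight (1 : Fin n → ZMod 2)) _ _ fun y => ?_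
        rw [h1, hee]
        rfl
      simp_rw [h2]
      rw [Finset.sum_neg_distrib]
      linarith
    refine no_completion (fun x y => !(A (e x) (e' y))) S.card k hd1 ?_ hk (by omega) ?_ hsum δ hδ
      hδ14 a ha1 hT
    · intro T hT
      have h1 : Shat A (T.image e') := by
        intro B hB
        obtain ⟨x, hx⟩ := hT (T.filter fun y => e' y ∉ B) (Finset.filter_subset _ _)
        refine ⟨e x, fun y hy => ?_⟩
        obtain ⟨y', hy', rfl⟩ := Finset.mem_image.1 hy
        have h2 : (!(A (e x) (e' y'))) = true ↔ y' ∈ T.filter fun y => e' y ∉ B := hx y' hy'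
        rw [Finset.mem_filter] at h2
        cases h3 : A (e x) (e' y')
        · rw [h3] at h2
          simp only [Bool.not_false, true_iff] at h2
          simp [h2.2]
        · rw [h3] at h2
          simp only [Bool.not_true, Bool.false_eq_true, false_iff, not_and, not_not] at h2
          simp [h2 hy']
      have h2 := hd _ h1
      rwa [Finset.card_image_of_injective _ he'] at h2
    · intro x y hxy
      have h1 : A (e x) (e' y) = false := by
        apply hfar
        have h2 : hammingDist (e x) (e' y) + hammingDist (e x) (e y) = n := by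
          unfold hammingDist
          rw [← Finset.card_union_of_disjoint]
          · have h3 : ((univ.filter fun i => e x i ≠ e' y i) ∪
                (univ.filter fun i => e x i ≠ e y i)) = univ := by
              ext i
              simp only [Finset.mem_union, Finset.mem_filter, Finset.mem_univ, true_and, e', iff_true]
              cases e x i <;> cases e y i <;> simp
            rw [h3]; simp
          · rw [Finset.disjoint_left]
            intro i hi hi'
            simp only [Finset.mem_filter, Finset.mem_univ, true_and, e'] at hi hi'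
            revert hi hi'
            cases e x i <;> cases e y i <;> simp
        have h3 := hdist x y
        omega
      rw [h1]; rfl

end GHDPoly
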