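import Mathlib

/-!
# Completions of Gap Hamming Distance from blocks of Walsh functions
-/

open Finset
open scoped BigOperators

namespace GHDUpper

/-- The Walsh functions. -/
def walsh {m : ℕ} (c z : Fin m → Bool) : ℤ := ∏ i, if c i && z i then -1 else 1

theorem walsh_abs {m : ℕ} (c z : Fin m → Bool) : |walsh c z| = 1 := by
  unfold walsh
  rw [abs_prod]
  refine prod_eq_one (fun i _ => ?_)
  split_ifs <;> simp

theorem walsh_orth {m : ℕ} (z z' : Fin m → Bool) :
    ∑ c : Fin m → Bool, walsh c z * walsh c z' = if z = z' then 2 ^ m else 0 := by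
  have h1 : ∀ c : Fin m → Bool, walsh c z * walsh c z' =
      ∏ i, ((if c i && z i then (-1 : ℤ) else 1) * (if c i && z' i then -1 else 1)) := by
    intro c
    unfold walsh
    rw [prod_mul_distrib]
  have h2 : ∑ c : Fin m → Bool,
      ∏ i, ((if c i && z i then (-1 : ℤ) else 1) * (if c i && z' i then -1 else 1)) =
      ∏ i, ∑ b : Bool, ((if b && z i then (-1 : ℤ) else 1) * (if b && z' i then -1 else 1)) := by
    rw [prod_univ_sum, Fintype.piFinset_univ]
  rw [sum_congr rfl (fun c _ => h1 c), h2]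
  have h3 : ∀ i, ∑ b : Bool, ((if b && z i then (-1 : ℤ) else 1) *
      (if b && z' i then -1 else 1)) = if z i = z' i then 2 else 0 := by
    intro i
    cases z i <;> cases z' i <;> simp
  rw [prod_congr rfl (fun i _ => h3 i)]
  split_ifs with h
  · subst h
    simp
  · obtain ⟨i, hi⟩ : ∃ i, z i ≠ z' i := by
      by_contra hcon
      push Not at hcon
      exact h (funext hcon)
    exact prod_eq_zero (mem_univ i) (by simp [hi])

theorem parseval {m : ℕ} (f : (Fin m → Bool) → ℤ) :
    ∑ c : Fin m → Bool, (∑ z, f z * walsh c z) ^ 2 = 2 ^ m * ∑ z, f z ^ 2 := by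
  have h1 : ∀ c : Fin m → Bool, (∑ z, f z * walsh c z) ^ 2 =
      ∑ z, ∑ z', f z * f z' * (walsh c z * walsh c z') := by
    intro c
    rw [sq, sum_mul_sum]
    refine sum_congr rfl (fun z _ => sum_congr rfl (fun z' _ => ?_))
    ring
  rw [sum_congr rfl (fun c _ => h1 c), sum_comm]
  have h2 : ∀ z : Fin m → Bool, ∑ c : Fin m → Bool, ∑ z', f z * f z' *
      (walsh c z * walsh c z') = 2 ^ m * f z ^ 2 := by
    intro z
    rw [sum_comm]
    have h3 : ∀ z' : Fin m → Bool, ∑ c : Fin m → Bool, f z * f z' *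
        (walsh c z * walsh c z') = if z = z' then 2 ^ m * f z ^ 2 else 0 := by
      intro z'
      rw [← mul_sum, walsh_orth]
      split_ifs with h
      · subst h; ring
      · simp
    rw [sum_congr rfl (fun z' _ => h3 z')]
    simp
  rw [sum_congr rfl (fun z _ => h2 z), ← mul_sum]

/-- A number with value `1` for `true` and `-1` for `false`. -/
def sg (b : Bool) : ℤ := if b then 1 else -1

/-- The Walsh coefficients of the restriction of `x` along `ι`. -/
def coef {m n : ℕ} (ι : (Fin m → Bool) → Fin n) (c : Fin m → Bool) (x : Fin n → Bool) : ℤ :=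
  ∑ z, sg (x (ι z)) * walsh c z

theorem exists_large {n : ℕ} (a : ℕ) (ι : (Fin (2 * a) → Bool) → Fin n)
    (x : Fin n → Bool) : ∃ c, (2 : ℤ) ^ a ≤ |coef ι c x| := by
  have h1 := parseval (fun z : Fin (2 * a) → Bool => sg (x (ι z)))
  have h2 : ∑ z : Fin (2 * a) → Bool, sg (x (ι z)) ^ 2 = 2 ^ (2 * a) := by
    have : ∀ z : Fin (2 * a) → Bool, sg (x (ι z)) ^ 2 = 1 := by
      intro z; unfold sg; split_ifs <;> norm_num
    rw [sum_congr rfl (fun z _ => this z)]
    simp
  rw [h2] at h1
  have h3 : ∑ c : Fin (2 * a) → Bool, (2 : ℤ) ^ (2 * a) ≤ ∑ c : Fin (2 * a) → Bool,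
      (∑ z, sg (x (ι z)) * walsh c z) ^ 2 := by
    rw [h1]
    simp
  obtain ⟨c, _, hc⟩ := exists_le_of_sum_le univ_nonempty h3
  refine ⟨c, ?_⟩
  have h4 : ((2 : ℤ) ^ a) ^ 2 ≤ |coef ι c x| ^ 2 := by
    rw [sq_abs, ← pow_mul, mul_comm a 2]
    exact hc
  by_contra hlt
  push Not at hlt
  have h5 := abs_nonneg (coef ι c x)
  nlinarith

/-- the weights of a row -/
def wgt {N a : ℕ} (s : Fin N → Bool) (c : Fin N → (Fin (2 * a) → Bool))
    (p : Fin N × (Fin (2 * a) → Bool)) : ℤ := sg (s p.1) * walsh (c p.1) p.2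

/-- the linear form of a row -/
def form {N a n : ℕ} (ι : Fin N × (Fin (2 * a) → Bool) ↪ Fin n) (s : Fin N → Bool)
    (c : Fin N → (Fin (2 * a) → Bool)) (y : Fin n → Bool) : ℤ :=
  ∑ p, sg (y (ι p)) * wgt s c p

lemma sg_abs (b : Bool) : |sg b| = 1 := by cases b <;> simp [sg]

lemma wgt_abs {N a : ℕ} (s : Fin N → Bool) (c : Fin N → (Fin (2 * a) → Bool))
    (p : Fin N × (Fin (2 * a) → Bool)) : |wgt s c p| = 1 := by
  unfold wgt
  rw [abs_mul, sg_abs, walsh_abs, one_mul]

theorem form_sub {N a n : ℕ} (ι : Fin N × (Fin (2 * a) → Bool) ↪ Fin n) (s : Fin N → Bool)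
    (c : Fin N → (Fin (2 * a) → Bool)) (x y : Fin n → Bool) :
    |form ι s c x - form ι s c y| ≤ 2 * hammingDist x y := by
  unfold form
  rw [← sum_sub_distrib]
  refine (abs_sum_le_sum_abs _ _).trans ?_
  have h1 : ∀ p, |sg (x (ι p)) * wgt s c p - sg (y (ι p)) * wgt s c p| =
      if x (ι p) ≠ y (ι p) then 2 else 0 := by
    intro p
    rw [← sub_mul, abs_mul, wgt_abs, mul_one]
    unfold sg
    cases x (ι p) <;> cases y (ι p) <;> simp
  rw [sum_congr rfl (fun p _ => h1 p), ← sum_filter, sum_const, nsmul_eq_mul]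
  have h2 : (univ.filter fun p => x (ι p) ≠ y (ι p)).card ≤ hammingDist x y := by
    unfold hammingDist
    rw [← card_map ι]
    refine card_le_card ?_
    intro i hi
    simp only [mem_map, mem_filter, mem_univ, true_and] at hi ⊢
    obtain ⟨z, hz, rfl⟩ := hi
    exact hz
  have h3 : ((univ.filter fun p => x (ι p) ≠ y (ι p)).card : ℤ) ≤ hammingDist x y := by
    exact_mod_cast h2
  linarith

theorem form_add {N a n : ℕ} (ι : Fin N × (Fin (2 * a) → Bool) ↪ Fin n) (s : Fin N → Bool)
    (c : Fin N → (Fin (2 * a) → Bool)) (x y : Fin n → Bool) :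
    |form ι s c x + form ι s c y| ≤ 2 * (n - hammingDist x y : ℤ) := by
  have h1 : form ι s c y = - form ι s c (fun i => !(y i)) := by
    unfold form
    rw [← sum_neg_distrib]
    refine sum_congr rfl (fun p _ => ?_)
    by_cases hb : y (ι p) = true
    · simp [sg, hb]
    · simp [sg, Bool.not_eq_true _ ▸ hb]
  have h2 := form_sub ι s c x (fun i => !(y i))
  rw [h1, ← sub_eq_add_neg]
  have h3 : hammingDist x (fun i => !(y i)) + hammingDist x y = n := by
    unfold hammingDist
    have h5 := card_filter_add_card_filter_not (s := (univ : Finset (Fin n)))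
      (p := fun i => x i ≠ !(y i))
    rw [card_univ, Fintype.card_fin] at h5
    refine Eq.trans ?_ h5
    congr 2
    ext i
    simp only [mem_filter, mem_univ, true_and, ne_eq, not_not]
    cases x i <;> cases y i <;> simp
  have h4 : (hammingDist x (fun i => !(y i)) : ℤ) + hammingDist x y = n := by exact_mod_cast h3
  linarith

/-- **Block completions.** -/
theorem block (n k N a : ℕ) (h1 : N * 4 ^ a ≤ n) (h2 : 2 * k < N * 2 ^ a) :
    ∃ A : (Fin n → Bool) → (Fin n → Bool) → Bool,
      (∀ x y : Fin n → Bool, hammingDist x y ≤ k → A x y = true) ∧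
      (∀ x y : Fin n → Bool, n - k ≤ hammingDist x y → A x y = false) ∧
      ∀ S : Finset (Fin n → Bool),
        (∀ T ⊆ S, ∃ x : Fin n → Bool, ∀ y ∈ S, (A x y = true ↔ y ∈ T)) →
          S.card ≤ N * (2 * a + 1) := by
  classical
  obtain ⟨ι⟩ : Nonempty ((Fin N × (Fin (2 * a) → Bool)) ↪ Fin n) := by
    apply Function.Embedding.nonempty_of_card_le
    simp only [Fintype.card_prod, Fintype.card_fun, Fintype.card_fin, Fintype.card_bool]
    rw [pow_mul]
    exact h1
  have hlarge := fun (x : Fin n → Bool) (j : Fin N) => exists_large a (fun z => ι (j, z)) x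
  choose c hc using hlarge
  let s : (Fin n → Bool) → Fin N → Bool := fun x j =>
    decide (0 ≤ coef (fun z => ι (j, z)) (c x j) x)
  have hform : ∀ x y, form ι (s x) (c x) y = ∑ j, sg (s x j) * coef (fun z => ι (j, z)) (c x j) y := by
    intro x y
    unfold form
    rw [Fintype.sum_prod_type]
    refine sum_congr rfl fun j _ => ?_
    unfold coef wgt
    rw [mul_sum]
    refine sum_congr rfl fun z _ => ?_
    ring
  have hself : ∀ x, (2 * k + 1 : ℤ) ≤ form ι (s x) (c x) x := by
    intro x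
    rw [hform]
    have h3 : ∀ j, (2 : ℤ) ^ a ≤ sg (s x j) * coef (fun z => ι (j, z)) (c x j) x := by
      intro j
      refine (hc x j).trans (le_of_eq ?_)
      by_cases h : 0 ≤ coef (fun z => ι (j, z)) (c x j) x
      · rw [abs_of_nonneg h]
        have : s x j = true := decide_eq_true h
        rw [this]; simp [sg]
      · rw [abs_of_neg (not_le.1 h)]
        have : s x j = false := decide_eq_false h
        rw [this]; simp [sg]
    have h4 : ∑ _j : Fin N, (2 : ℤ) ^ a ≤
        ∑ j, sg (s x j) * coef (fun z => ι (j, z)) (c x j) x := sum_le_sum fun j _ => h3 j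
    rw [sum_const, card_univ, Fintype.card_fin, nsmul_eq_mul] at h4
    have h5 : (2 * k : ℤ) < N * 2 ^ a := by exact_mod_cast h2
    linarith
  let A : (Fin n → Bool) → (Fin n → Bool) → Bool := fun x y =>
    decide (0 < form ι (s x) (c x) y)
  refine ⟨A, ?_, ?_, ?_⟩
  · intro x y hxy
    have h3 := abs_le.1 (form_sub ι (s x) (c x) x y)
    have h4 : (hammingDist x y : ℤ) ≤ k := by exact_mod_cast hxy
    have h5 := hself x
    simp only [A, decide_eq_true_eq]
    linarith
  · intro x y hxy
    have h3 := abs_le.1 (form_add ι (s x) (c x) x y)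
    have h0 : hammingDist x y ≤ n := by
      simpa using hammingDist_le_card_fintype (x := x) (y := y)
    have h4 : (n : ℤ) - hammingDist x y ≤ k := by omega
    have h5 := hself x
    simp only [A, decide_eq_false_iff_not]
    linarith
  · intro S hS
    have h1 : ∀ T : {T // T ∈ S.powerset}, ∃ x : Fin n → Bool, ∀ y ∈ S,
        (A x y = true ↔ y ∈ T.1) := fun T => hS T.1 (mem_powerset.mp T.2)
    choose r hr using h1
    let F : {T // T ∈ S.powerset} → (Fin N → (Fin (2 * a) → Bool)) × (Fin N → Bool) := fun T =>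
      (c (r T), s (r T))
    have hF : Function.Injective F := by
      intro T T' hTT
      simp only [F, Prod.mk.injEq] at hTT
      apply Subtype.ext
      ext y
      have hA : ∀ y, A (r T) y = A (r T') y := by
        intro y
        simp only [A]
        rw [hTT.2, hTT.1]
      constructor
      · intro hy
        have hyS : y ∈ S := mem_powerset.mp T.2 hy
        rw [← hr T' y hyS, ← hA y, hr T y hyS]
        exact hy
      · intro hy
        have hyS : y ∈ S := mem_powerset.mp T'.2 hy
        rw [← hr T y hyS, hA y, hr T' y hyS]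
        exact hy
    have h2 := Fintype.card_le_of_injective F hF
    rw [Fintype.card_coe, card_powerset, Fintype.card_prod, Fintype.card_fun, Fintype.card_fun,
      Fintype.card_fun, Fintype.card_fin, Fintype.card_fin, Fintype.card_bool, ← pow_mul,
      ← pow_add] at h2
    have h3 := (Nat.pow_le_pow_iff_right (by norm_num : 1 < 2)).mp h2
    refine h3.trans (le_of_eq ?_)
    ring

/-- **The upper bound for all `n > 2 k`.** -/
theorem upper (n k : ℕ) (hkn : 2 * k < n) :
    ∃ A : (Fin n → Bool) → (Fin n → Bool) → Bool,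
      (∀ x y : Fin n → Bool, hammingDist x y ≤ k → A x y = true) ∧
      (∀ x y : Fin n → Bool, n - k ≤ hammingDist x y → A x y = false) ∧
      ∀ S : Finset (Fin n → Bool),
        (∀ T ⊆ S, ∃ x : Fin n → Bool, ∀ y ∈ S, (A x y = true ↔ y ∈ T)) →
          (S.card : ℝ) ≤ 240 * (1 + (k : ℝ) ^ 2 / n) * Real.log (2 + min ((n : ℝ) / k) k) := by
  have hn0 : (0 : ℝ) < n := by
    have : 0 < n := by omega
    exact_mod_cast this
  rcases Nat.eq_zero_or_pos k with hk | hk
  · subst hk
    obtain ⟨A, hA1, hA2, hA3⟩ := block n 0 1 0 (by simp; omega) (by norm_num)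
    refine ⟨A, hA1, hA2, fun S hS => ?_⟩
    have h1 := hA3 S hS
    have h2 : (S.card : ℝ) ≤ 1 := by exact_mod_cast h1
    have h3 := Real.log_two_gt_d9
    simp only [Nat.cast_zero, div_zero, min_self, add_zero]
    norm_num
    linarith
  have hk0 : (1 : ℝ) ≤ k := by exact_mod_cast hk
  set μ := min ((n : ℝ) / k) k with hμ
  have hnk2 : 2 ≤ (n : ℝ) / k := by
    rw [le_div_iff₀ (by linarith)]
    exact_mod_cast hkn.le
  have hμ1 : 1 ≤ μ := le_min (by linarith) hk0
  have hlog1 : 1 ≤ Real.log (2 + μ) := by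
    rw [Real.le_log_iff_exp_le (by linarith)]
    have e1 := Real.exp_one_lt_d9
    linarith
  by_cases hsmall : n < 2 * (2 * k + 1)
  · obtain ⟨A, hA1, hA2, hA3⟩ := block n k n 0 (by simp) (by simpa using hkn)
    refine ⟨A, hA1, hA2, fun S hS => ?_⟩
    have h1 := hA3 S hS
    have h2 : (S.card : ℝ) ≤ n := by
      have : S.card ≤ n := by simpa using h1
      exact_mod_cast this
    have h3 : (n : ℝ) ≤ 5 * k := by
      have : n ≤ 5 * k := by omega
      exact_mod_cast this
    have h4 : (n : ℝ) ≤ 25 * ((k : ℝ) ^ 2 / n) := by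
      rw [mul_div_assoc', le_div_iff₀ hn0]
      nlinarith
    have h5 : 0 ≤ (k : ℝ) ^ 2 / n := by positivity
    calc (S.card : ℝ) ≤ 240 * (1 + (k : ℝ) ^ 2 / n) * 1 := by linarith
      _ ≤ _ := mul_le_mul_of_nonneg_left hlog1 (by positivity)
  push Not at hsmall
  set q := 2 * k + 1 with hq
  set a := min (Nat.log 2 (n / (2 * q))) (Nat.clog 2 q) with ha
  have hdiv : 1 ≤ n / (2 * q) := (Nat.one_le_div_iff (by omega)).2 hsmall
  have ha1 : 2 ^ a * (2 * q) ≤ n := by
    have e1 : 2 ^ a ≤ n / (2 * q) :=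
      (Nat.pow_le_pow_right (by norm_num) (min_le_left _ _)).trans
        (Nat.pow_log_le_self 2 (by omega))
    exact (Nat.mul_le_mul_right _ e1).trans (Nat.div_mul_le_self _ _)
  have ha2 : 2 ^ a < 2 * q := by
    have e1 : 2 ^ a ≤ 2 ^ Nat.clog 2 q := Nat.pow_le_pow_right (by norm_num) (min_le_right _ _)
    have e2 : 2 ^ Nat.clog 2 q < 2 * q := by
      have e3 := Nat.pow_pred_clog_lt_self (b := 2) (by norm_num) (show 1 < q by omega)
      have hpos : 0 < Nat.clog 2 q := Nat.clog_pos (by norm_num) (by omega)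
      obtain ⟨b, hb⟩ : ∃ b, Nat.clog 2 q = b + 1 := ⟨_, (Nat.succ_pred_eq_of_pos hpos).symm⟩
      rw [hb] at e3 ⊢
      simp only [Nat.pred_succ] at e3
      rw [pow_succ]; omega
    omega
  have hpow : 0 < 2 ^ a := by positivity
  set N := (2 * k + 2 ^ a) / 2 ^ a with hN
  have hN1 : 2 * k < N * 2 ^ a := by
    have e1 := Nat.lt_div_mul_add (a := 2 * k + 2 ^ a) hpow
    rw [← hN] at e1
    omega
  have hN2 : N * 2 ^ a ≤ 2 * k + 2 ^ a := Nat.div_mul_le_self _ _
  have h4a : 4 ^ a = 2 ^ a * 2 ^ a := by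
    rw [← mul_pow]; norm_num
  have hNn : N * 4 ^ a ≤ n := by
    by_cases hbig : q ≤ 2 ^ a
    · have hN3 : N = 1 := by
        rw [hN]
        have e1 : 2 * k + 2 ^ a = 2 * k + 2 ^ a := rfl
        rw [Nat.add_div_right _ hpow, Nat.div_eq_of_lt (by omega)]
      rw [hN3, one_mul, h4a]
      exact (Nat.mul_le_mul_left _ ha2.le).trans ha1
    · push Not at hbig
      calc N * 4 ^ a = (N * 2 ^ a) * 2 ^ a := by rw [h4a]; ring
        _ ≤ (2 * k + 2 ^ a) * 2 ^ a := Nat.mul_le_mul_right _ hN2
        _ ≤ (2 * q) * 2 ^ a := Nat.mul_le_mul_right _ (by omega)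
        _ = 2 ^ a * (2 * q) := by ring
        _ ≤ n := ha1
  obtain ⟨A, hA1, hA2, hA3⟩ := block n k N a hNn hN1
  refine ⟨A, hA1, hA2, fun S hS => ?_⟩
  have h1 := hA3 S hS
  have h2 : (S.card : ℝ) ≤ N * (2 * a + 1) := by exact_mod_cast h1
  -- the bound for `N`
  have hNle : (N : ℝ) ≤ 24 * (1 + (k : ℝ) ^ 2 / n) := by
    have hk2 : 0 ≤ (k : ℝ) ^ 2 / n := by positivity
    by_cases hbig : q ≤ 2 ^ a
    · have hN3 : N = 1 := by
        rw [hN, Nat.add_div_right _ hpow, Nat.div_eq_of_lt (by omega)]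
      rw [hN3]; push_cast; linarith
    · push Not at hbig
      have hlt : a = Nat.log 2 (n / (2 * q)) := by
        rw [ha]
        refine min_eq_left (le_of_not_gt fun h => ?_)
        have e1 : a = Nat.clog 2 q := by rw [ha]; exact min_eq_right h.le
        have e2 : q ≤ 2 ^ a := by rw [e1]; exact Nat.le_pow_clog (by norm_num) _
        omega
      have e1 : n < 4 * q * 2 ^ a := by
        have e2 : n / (2 * q) < 2 ^ (a + 1) := by
          rw [hlt]; exact Nat.lt_pow_succ_log_self (by norm_num) _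
        have e3 := (Nat.div_lt_iff_lt_mul (by omega)).1 e2
        rw [pow_succ] at e3
        calc n < 2 ^ a * 2 * (2 * q) := e3
          _ = _ := by ring
      have e4 : (n : ℝ) ≤ 4 * q * 2 ^ a := by exact_mod_cast e1.le
      have e5 : (q : ℝ) ≤ 3 * k := by rw [hq]; push_cast; linarith
      have e6 : (N : ℝ) * 2 ^ a ≤ 2 * k + 2 ^ a := by exact_mod_cast hN2
      have hp : (0 : ℝ) < 2 ^ a := by positivity
      have e7 : (2 * k : ℝ) ≤ 24 * ((k : ℝ) ^ 2 / n) * 2 ^ a := by
        rw [mul_div_assoc', div_mul_eq_mul_div, le_div_iff₀ hn0]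
        calc (2 * k : ℝ) * n ≤ 2 * k * (4 * q * 2 ^ a) :=
              mul_le_mul_of_nonneg_left e4 (by positivity)
          _ = 8 * k * 2 ^ a * q := by ring
          _ ≤ 8 * k * 2 ^ a * (3 * k) := mul_le_mul_of_nonneg_left e5 (by positivity)
          _ = 24 * (k : ℝ) ^ 2 * 2 ^ a := by ring
      refine le_of_mul_le_mul_right ?_ hp
      nlinarith
  -- the bound for `a`
  have hale : (2 * a + 1 : ℝ) ≤ 10 * Real.log (2 + μ) := by
    have e1 : (2 : ℝ) ^ a ≤ 6 * μ := by
      rw [hμ, mul_min_of_nonneg _ _ (by norm_num)]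
      refine le_min ?_ ?_
      · have e2 : ((2 ^ a * (2 * q) : ℕ) : ℝ) ≤ n := by exact_mod_cast ha1
        push_cast at e2
        have e3 : (2 * k : ℝ) ≤ q := by rw [hq]; push_cast; linarith
        have e4 : (2 : ℝ) ^ a * (2 * (2 * k)) ≤ n := by
          refine le_trans ?_ e2
          exact mul_le_mul_of_nonneg_left (by linarith) (by positivity)
        rw [mul_div_assoc', le_div_iff₀ (by linarith)]
        have e5 : (0 : ℝ) ≤ 2 ^ a * k := by positivity
        nlinarith
      · have e2 : ((2 ^ a : ℕ) : ℝ) ≤ ((2 * q : ℕ) : ℝ) := by exact_mod_cast ha2.le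
        push_cast at e2
        have e3 : (q : ℝ) ≤ 3 * k := by rw [hq]; push_cast; linarith
        linarith
    have e2 : (a : ℝ) * Real.log 2 ≤ Real.log (6 * μ) := by
      rw [← Real.log_pow]
      exact Real.log_le_log (by positivity) e1
    rw [Real.log_mul (by norm_num) (by linarith)] at e2
    have e3 : Real.log μ ≤ Real.log (2 + μ) := Real.log_le_log (by linarith) (by linarith)
    have e4 : Real.log 6 ≤ 1.8 * Real.log (2 + μ) := by
      have f1 : Real.log 6 ≤ 1.8 := by
        rw [Real.log_le_iff_le_exp (by norm_num)]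
        have f2 := Real.exp_one_gt_d9
        have f3 : Real.exp 1.8 = Real.exp 1 * Real.exp 0.8 := by rw [← Real.exp_add]; norm_num
        have f4 : (2.22 : ℝ) ≤ Real.exp 0.8 := by
          have f5 : Real.exp 0.8 = Real.exp 0.4 ^ 2 := by
            rw [← Real.exp_nat_mul]; norm_num
          have f6 := Real.quadratic_le_exp_of_nonneg (x := (0.4 : ℝ)) (by norm_num)
          have f7 := Real.add_one_le_exp (0.4 : ℝ)
          have f8 : Real.exp 0.4 = Real.exp 0.2 ^ 2 := by
            rw [← Real.exp_nat_mul]; norm_num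
          have f9 := Real.quadratic_le_exp_of_nonneg (x := (0.2 : ℝ)) (by norm_num)
          have f10 : (1.22 : ℝ) ≤ Real.exp 0.2 := by linarith
          have f11 : (1.4884 : ℝ) ≤ Real.exp 0.4 := by rw [f8]; nlinarith
          have f12 : (2.2153 : ℝ) ≤ Real.exp 0.8 := by rw [f5]; nlinarith
          have f13 : Real.exp 0.2 = Real.exp 0.1 ^ 2 := by
            rw [← Real.exp_nat_mul]; norm_num
          have f14 := Real.quadratic_le_exp_of_nonneg (x := (0.1 : ℝ)) (by norm_num)
          have f15 : (1.105 : ℝ) ≤ Real.exp 0.1 := by linarith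
          have f16 : (1.221 : ℝ) ≤ Real.exp 0.2 := by rw [f13]; nlinarith
          have f17 : (1.4908 : ℝ) ≤ Real.exp 0.4 := by rw [f8]; nlinarith
          rw [f5]; nlinarith
        rw [f3]
        nlinarith
      nlinarith
    have e5 := Real.log_two_gt_d9
    have e6 : (a : ℝ) * 0.69 ≤ a * Real.log 2 :=
      mul_le_mul_of_nonneg_left (by linarith) (by positivity)
    linarith
  have h5 : 0 ≤ (k : ℝ) ^ 2 / n := by positivity
  calc (S.card : ℝ) ≤ N * (2 * a + 1) := h2
    _ ≤ (24 * (1 + (k : ℝ) ^ 2 / n)) * (10 * Real.log (2 + μ)) :=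
        mul_le_mul hNle hale (by positivity) (by positivity)
    _ = _ := by ring

end GHDUpper
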